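import Pool.Agent.V8H32.Law.Defs

/-! Closed subgroups of the torus, their Haar measures and duality. -/

set_option autoImplicit false

namespace Pool.Agent.V8H32.Law

open MeasureTheory UnitAddTorus Topology

variable {n : ℕ}

theorem mem_ann {P : AddSubgroup (Fin n → ℤ)} {θ : UnitAddTorus (Fin n)} :
    θ ∈ ann P ↔ ∀ x ∈ P, ∑ l, x l • θ l = 0 := Iff.rfl

theorem isClosed_ann (P : AddSubgroup (Fin n → ℤ)) :
    IsClosed (ann P : Set (UnitAddTorus (Fin n))) := by
  have h : (ann P : Set (UnitAddTorus (Fin n))) =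
      ⋂ x ∈ P, {θ | ∑ l, x l • θ l = 0} := by
    ext θ
    simp [ann]
  rw [h]
  refine isClosed_biInter fun x _ => isClosed_eq ?_ continuous_const
  fun_prop

theorem exists_haar {K : AddSubgroup (UnitAddTorus (Fin n))}
    (hK : IsClosed (K : Set (UnitAddTorus (Fin n)))) : ∃ μ, IsHaar K μ := by
  have hc : CompactSpace K := isCompact_iff_compactSpace.1 hK.isCompact
  set ν : Measure K := Measure.addHaarMeasure ⊤ with hν
  have hν1 : ν Set.univ = 1 := Measure.addHaarMeasure_self
  refine ⟨ν.map Subtype.val, ⟨?_⟩, ?_, ?_⟩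
  · rw [Measure.map_apply measurable_subtype_coe MeasurableSet.univ, Set.preimage_univ, hν1]
  · rw [Measure.map_apply measurable_subtype_coe hK.measurableSet.compl]
    have : (Subtype.val : K → _) ⁻¹' (K : Set (UnitAddTorus (Fin n)))ᶜ = ∅ := by
      ext x
      simp
    rw [this, measure_empty]
  · intro g hg
    rw [Measure.map_map (by fun_prop) measurable_subtype_coe]
    have h1 : (fun θ : UnitAddTorus (Fin n) => g + θ) ∘ (Subtype.val : K → _) =
        Subtype.val ∘ fun θ : K => ⟨g, hg⟩ + θ := by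
      funext θ
      rfl
    rw [h1, ← Measure.map_map measurable_subtype_coe (by fun_prop)]
    congr 1
    exact map_add_left_eq_self ν _

theorem mFourier_eq (x : Fin n → ℤ) (θ : UnitAddTorus (Fin n)) :
    mFourier x θ = ((AddCircle.toCircle (∑ l, x l • θ l) : Circle) : ℂ) := by
  have h1 : ∀ s : Finset (Fin n), AddCircle.toCircle (∑ l ∈ s, x l • θ l) =
      ∏ l ∈ s, AddCircle.toCircle (x l • θ l) := by
    intro s
    induction s using Finset.induction_on with
    | empty => simp [AddCircle.toCircle_zero]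
    | insert a s ha ih => rw [Finset.sum_insert ha, AddCircle.toCircle_add, ih, Finset.prod_insert ha]
  rw [h1]
  simp only [mFourier, ContinuousMap.coe_mk, fourier_apply]
  exact (map_prod Circle.coeHom _ _).symm

/-- the trivial character -/
theorem mFourier_ann {P : AddSubgroup (Fin n → ℤ)} {x : Fin n → ℤ} (hx : x ∈ P)
    {θ : UnitAddTorus (Fin n)} (hθ : θ ∈ ann P) : mFourier x θ = 1 := by
  rw [mFourier_eq, hθ x hx, AddCircle.toCircle_zero, Circle.coe_one]

/-- the embedding of `ℚ/ℤ` in `ℝ/ℤ` -/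
noncomputable def embQ : AddCircle (1 : ℚ) →+ UnitAddCircle :=
  QuotientAddGroup.map _ _ (Rat.castHom ℝ).toAddMonoidHom (by
    intro x hx
    obtain ⟨k, rfl⟩ := AddSubgroup.mem_zmultiples_iff.1 hx
    refine AddSubgroup.mem_comap.2 (AddSubgroup.mem_zmultiples_iff.2 ⟨k, ?_⟩)
    simp)

theorem embQ_inj {x : AddCircle (1 : ℚ)} (h : embQ x = 0) : x = 0 := by
  induction x using QuotientAddGroup.induction_on with
  | H q =>
    have h1 : embQ (q : AddCircle (1 : ℚ)) = ((q : ℝ) : UnitAddCircle) := rfl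
    rw [h1] at h
    obtain ⟨k, hk⟩ := (AddCircle.coe_eq_zero_iff (1 : ℝ)).1 h
    refine (AddCircle.coe_eq_zero_iff (1 : ℚ)).2 ⟨k, ?_⟩
    simp only [zsmul_eq_mul, mul_one] at hk ⊢
    exact_mod_cast hk

/-- **Duality.** -/
theorem exists_sep {P : AddSubgroup (Fin n → ℤ)} {x : Fin n → ℤ} (hx : x ∉ P) :
    ∃ θ ∈ ann P, mFourier x θ ≠ 1 := by
  classical
  have h1 : (QuotientAddGroup.mk' P x : (Fin n → ℤ) ⧸ P) ≠ 0 := by
    rw [Ne, QuotientAddGroup.mk'_apply, QuotientAddGroup.eq_zero_iff]
    exact hx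
  obtain ⟨c, hc⟩ := CharacterModule.exists_character_apply_ne_zero_of_ne_zero h1
  set ψ : (Fin n → ℤ) →+ UnitAddCircle := embQ.comp
    ((c : ((Fin n → ℤ) ⧸ P) →+ AddCircle (1 : ℚ)).comp (QuotientAddGroup.mk' P)) with hψ
  have hsum : ∀ y : Fin n → ℤ, ∑ l, y l • ψ (Pi.single l 1) = ψ y := by
    intro y
    rw [← Finset.univ_sum_single y, map_sum]
    refine Finset.sum_congr rfl fun l _ => ?_
    rw [← map_zsmul]
    congr 1
    rw [Finset.univ_sum_single]
    ext j
    by_cases h : j = l
    · subst h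
      simp
    · simp [Pi.single_eq_of_ne h]
  refine ⟨fun l => ψ (Pi.single l 1), fun y hy => ?_, ?_⟩
  · rw [hsum]
    have : QuotientAddGroup.mk' P y = 0 := (QuotientAddGroup.eq_zero_iff y).2 hy
    have h2 : ψ y = embQ (c (QuotientAddGroup.mk' P y)) := rfl
    rw [h2, this, map_zero, map_zero]
  · rw [mFourier_eq, hsum]
    intro h2
    have h3 : AddCircle.toCircle (ψ x) = AddCircle.toCircle (0 : UnitAddCircle) := by
      rw [AddCircle.toCircle_zero]
      exact Circle.ext h2
    have h4 := AddCircle.injective_toCircle one_ne_zero h3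
    exact hc (embQ_inj h4)

theorem integral_mFourier {P : AddSubgroup (Fin n → ℤ)} {μ : Measure (UnitAddTorus (Fin n))}
    (hμ : IsHaar (ann P) μ) (x : Fin n → ℤ) [Decidable (x ∈ P)] :
    ∫ θ, mFourier x θ ∂μ = if x ∈ P then 1 else 0 := by
  have := hμ.prob
  split_ifs with hx
  · have h1 : ∀ᵐ θ ∂μ, mFourier x θ = 1 := by
      have h2 : ∀ᵐ θ ∂μ, θ ∈ (ann P : Set (UnitAddTorus (Fin n))) := by
        rw [ae_iff]
        exact hμ.supp
      filter_upwards [h2] with θ hθ
      exact mFourier_ann hx hθ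
    rw [integral_congr_ae h1]
    simp
  · obtain ⟨g, hg, hg1⟩ := exists_sep hx
    have h1 : ∫ θ, mFourier x θ ∂μ = mFourier x g * ∫ θ, mFourier x θ ∂μ := by
      conv_lhs => rw [← hμ.inv g hg]
      rw [integral_map (by fun_prop) (by fun_prop), ← integral_const_mul]
      refine integral_congr_ae (Filter.Eventually.of_forall fun θ => ?_)
      simp only
      rw [mFourier_eq, mFourier_eq, mFourier_eq]
      have h2 : ∑ l, x l • (g + θ) l = (∑ l, x l • g l) + ∑ l, x l • θ l := by
        rw [← Finset.sum_add_distrib]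
        refine Finset.sum_congr rfl fun l _ => ?_
        rw [Pi.add_apply, smul_add]
      rw [h2, AddCircle.toCircle_add, Circle.coe_mul]
    have h2 : (1 - mFourier x g) * ∫ θ, mFourier x θ ∂μ = 0 := by
      rw [sub_mul, one_mul, ← h1, sub_self]
    rcases mul_eq_zero.1 h2 with h3 | h3
    · exact absurd (sub_eq_zero.1 h3).symm hg1
    · exact h3

end Pool.Agent.V8H32.Law
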