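import Pool.Agent.V8H32.Law.Sym
import Pool.Agent.V8H32.Law.Haar
import Pool.Agent.V8H32.Coh.Mean
import Pool.Agent.V8H32.Coh.Dec

/-! Integral orders give an algebraic law: the abstract theorem. -/

set_option autoImplicit false

namespace Pool.Agent.V8H32.Law

open Complex Filter Topology ComplexConjugate UnitAddTorus
open Pool.Agent.H341R2 Pool.Agent.W540.BE Pool.Agent.V8H32.Coh Pool.Agent.H235R3.PT

section

variable {n : ℕ}

/-- the point `e(θ_l)` -/
noncomputable def uu (θ : UnitAddTorus (Fin n)) (l : Fin n) : ℂ := (AddCircle.toCircle (θ l) : Circle)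

theorem norm_uu (θ : UnitAddTorus (Fin n)) (l : Fin n) : ‖uu θ l‖ = 1 := Circle.norm_coe _

theorem uu_ne (θ : UnitAddTorus (Fin n)) (l : Fin n) : uu θ l ≠ 0 := Circle.coe_ne_zero _

theorem mFourier_uu (θ : UnitAddTorus (Fin n)) (x : Fin n → ℤ) (σ : Equiv.Perm (Fin n)) :
    mFourier x (fun l => θ (σ l)) = ∏ l, uu θ (σ l) ^ x l := by
  simp only [mFourier, ContinuousMap.coe_mk, fourier_apply]
  refine Finset.prod_congr rfl fun l _ => ?_
  rw [AddCircle.toCircle_zsmul, Circle.coe_zpow]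
  rfl

theorem orb_eq (θ : UnitAddTorus (Fin n)) (x : Fin n → ℤ) :
    orb (uu θ) x = ∑ σ : Equiv.Perm (Fin n), mFourier x (fun l => θ (σ l)) :=
  Finset.sum_congr rfl fun σ _ => (mFourier_uu θ x σ).symm

/-- the set of the eigenvalues is closed under complex conjugation -/
def Self (θ : UnitAddTorus (Fin n)) : Prop :=
  ∃ σ : Equiv.Perm (Fin n), ∀ l, conj (uu θ l) = uu θ (σ l)

theorem el_perm (u : Fin n → ℂ) (σ : Equiv.Perm (Fin n)) (k : ℕ) :
    el (fun l => u (σ l)) k = el u k := by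
  unfold el
  refine Fintype.sum_equiv (σ.finsetCongr.subtypeEquiv (fun A => by simp)) _ _ fun A => ?_
  simp

theorem el_conj (u : Fin n → ℂ) (k : ℕ) : conj (el u k) = el (fun l => conj (u l)) k := by
  unfold el
  rw [map_sum]
  refine Finset.sum_congr rfl fun A _ => ?_
  rw [map_prod]

theorem elm_real {θ : UnitAddTorus (Fin n)} (h : Self θ) (m : Fin n → ℕ) :
    conj (elm (uu θ) m) = elm (uu θ) m := by
  obtain ⟨σ, hσ⟩ := h
  unfold elm
  rw [map_prod]
  refine Finset.prod_congr rfl fun k _ => ?_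
  rw [map_pow, el_conj, funext hσ, el_perm]

theorem orb_real {θ : UnitAddTorus (Fin n)} (h : Self θ) (x : Fin n → ℤ) :
    conj (orb (uu θ) x) = orb (uu θ) x := by
  obtain ⟨τ, hτ⟩ := h
  unfold orb
  rw [map_sum]
  refine Fintype.sum_equiv (Equiv.mulLeft τ) _ _ fun σ => ?_
  rw [map_prod]
  refine Finset.prod_congr rfl fun l _ => ?_
  rw [map_zpow₀, hτ]
  rfl

theorem prod_sq {θ : UnitAddTorus (Fin n)} (h : Self θ) : (∏ l, uu θ l) ^ 2 = 1 := by
  obtain ⟨τ, hτ⟩ := h
  have h1 : conj (∏ l, uu θ l) = ∏ l, uu θ l := by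
    rw [map_prod, Finset.prod_congr rfl fun l _ => hτ l]
    exact Equiv.prod_comp τ (uu θ)
  have h2 : (∏ l, uu θ l) * conj (∏ l, uu θ l) = 1 := by
    rw [Complex.mul_conj, Complex.normSq_eq_norm_sq, norm_prod]
    simp [norm_uu]
  rw [h1] at h2
  rw [sq, h2]

/-- the character with respect to `S_n`, evaluated -/
noncomputable def Or (θ : UnitAddTorus (Fin n)) (x : Fin n → ℤ) : ℝ := (orb (uu θ) x).re

theorem Or_zero (θ : UnitAddTorus (Fin n)) : Or θ 0 = n.factorial := by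
  unfold Or orb
  simp [Fintype.card_perm]

theorem Or_bound (θ : UnitAddTorus (Fin n)) (x : Fin n → ℤ) : |Or θ x| ≤ n.factorial := by
  refine (Complex.abs_re_le_norm _).trans ?_
  unfold orb
  refine (norm_sum_le _ _).trans ?_
  have h1 : ∀ σ ∈ (Finset.univ : Finset (Equiv.Perm (Fin n))), ‖∏ l, uu θ (σ l) ^ x l‖ ≤ 1 := by
    intro σ _
    rw [norm_prod]
    simp [norm_uu]
  refine (Finset.sum_le_card_nsmul _ _ _ h1).trans ?_
  rw [Finset.card_univ, Fintype.card_perm, Fintype.card_fin, nsmul_eq_mul, mul_one]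

theorem Or_neg (θ : UnitAddTorus (Fin n)) (x : Fin n → ℤ) : Or θ (-x) = Or θ x := by
  unfold Or
  have h1 : orb (uu θ) (-x) = conj (orb (uu θ) x) := by
    unfold orb
    rw [map_sum]
    refine Finset.sum_congr rfl fun σ _ => ?_
    rw [map_prod]
    refine Finset.prod_congr rfl fun l _ => ?_
    rw [Pi.neg_apply, map_zpow₀, zpow_neg]
    have h2 : conj (uu θ (σ l)) = (uu θ (σ l))⁻¹ := by
      rw [Complex.inv_def, Complex.normSq_eq_norm_sq, norm_uu]
      simp
    rw [h2, inv_zpow]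
  rw [h1, Complex.conj_re]

end

section

variable {P : Type*} {N : P → ℕ}

/-- `N^{-iτ}` -/
noncomputable def zz (N : P → ℕ) (τ : ℝ) (p : P) : ℂ := ((N p : ℕ) : ℂ) ^ (-(τ * I))

theorem norm_zz (hN : NormSys N) (τ : ℝ) (p : P) : ‖zz N τ p‖ = 1 := by
  unfold zz
  rw [Complex.norm_natCast_cpow_of_pos (by have := hN.two_le p; omega)]
  simp

theorem zz_zero (p : P) : zz N 0 p = 1 := by simp [zz]

theorem zz_add (hN : NormSys N) (τ τ' : ℝ) (p : P) : zz N (τ + τ') p = zz N τ p * zz N τ' p := by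
  unfold zz
  have hp : ((N p : ℕ) : ℂ) ≠ 0 := by
    have := hN.two_le p
    exact_mod_cast (by omega : N p ≠ 0)
  rw [← Complex.cpow_add _ _ hp]
  congr 1
  push_cast
  ring

theorem zz_neg (hN : NormSys N) (τ : ℝ) (p : P) : zz N (-τ) p = conj (zz N τ p) := by
  have h := zz_add hN (-τ) τ p
  rw [neg_add_cancel, zz_zero] at h
  have h2 : conj (zz N τ p) = (zz N τ p)⁻¹ := by
    rw [Complex.inv_def, Complex.normSq_eq_norm_sq, norm_zz hN]
    simp
  rw [h2]
  exact eq_inv_of_mul_eq_one_left h.symm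

variable {n : ℕ} {θ : P → UnitAddTorus (Fin n)} {T : AddSubgroup ℝ}

/-- the basic function -/
noncomputable def FF (N : P → ℕ) (θ : P → UnitAddTorus (Fin n)) (x : (Fin n → ℤ) × T) (p : P) : ℝ :=
  Or (θ p) x.1 * (zz N x.2 p).re

theorem FF_bound (hN : NormSys N) (x : (Fin n → ℤ) × T) (p : P) :
    |FF N θ x p| ≤ n.factorial := by
  unfold FF
  rw [abs_mul]
  calc |Or (θ p) x.1| * |(zz N x.2 p).re| ≤ n.factorial * 1 :=
        mul_le_mul (Or_bound _ _) ((Complex.abs_re_le_norm _).trans (norm_zz hN _ _).le)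
          (abs_nonneg _) (by positivity)
    _ = n.factorial := mul_one _

theorem FF_pos (hN : NormSys N) (s : Finset ((Fin n → ℤ) × T)) (c : (Fin n → ℤ) × T → ℝ) (p : P) :
    0 ≤ ∑ x ∈ s, ∑ y ∈ s, c x * c y * FF N θ (x - y) p := by
  classical
  -- the terms for one permutation
  have key : ∀ (x y : (Fin n → ℤ) × T), FF N θ (x - y) p = ∑ σ : Equiv.Perm (Fin n), 1 / 2 * (
      ((mFourier x.1 (fun l => θ p (σ l)) * zz N x.2 p) *
        conj (mFourier y.1 (fun l => θ p (σ l)) * zz N y.2 p)).re +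
      ((mFourier x.1 (fun l => θ p (σ l)) * conj (zz N x.2 p)) *
        conj (mFourier y.1 (fun l => θ p (σ l)) * conj (zz N y.2 p))).re) := by
    intro x y
    unfold FF Or
    rw [orb_eq, Complex.re_sum, Finset.sum_mul]
    refine Finset.sum_congr rfl fun σ _ => ?_
    have h1 : mFourier (x - y).1 (fun l => θ p (σ l)) = mFourier x.1 (fun l => θ p (σ l)) *
        conj (mFourier y.1 (fun l => θ p (σ l))) := by
      rw [← mFourier_neg, ← mFourier_add, Prod.fst_sub, sub_eq_add_neg]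
    have h2 : zz N ((x - y).2 : T) p = zz N x.2 p * conj (zz N y.2 p) := by
      rw [Prod.snd_sub, AddSubgroup.coe_sub, sub_eq_add_neg, zz_add hN, zz_neg hN]
    rw [h1, h2]
    generalize mFourier x.1 (fun l => θ p (σ l)) = a
    generalize mFourier y.1 (fun l => θ p (σ l)) = b
    generalize zz N x.2 p = z
    generalize zz N y.2 p = w
    simp only [Complex.mul_re, Complex.mul_im, Complex.conj_re, Complex.conj_im, map_mul,
      Complex.conj_conj]
    ring
  have hsq : ∀ g : (Fin n → ℤ) × T → ℂ, ∑ x ∈ s, ∑ y ∈ s, c x * c y * (g x * conj (g y)).re =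
      Complex.normSq (∑ x ∈ s, (c x : ℂ) * g x) := by
    intro g
    have h1 : ((Complex.normSq (∑ x ∈ s, (c x : ℂ) * g x) : ℝ) : ℂ) =
        ∑ x ∈ s, ∑ y ∈ s, (c x * c y : ℂ) * (g x * conj (g y)) := by
      rw [← Complex.mul_conj, map_sum, Finset.sum_mul_sum]
      refine Finset.sum_congr rfl fun x _ => Finset.sum_congr rfl fun y _ => ?_
      rw [map_mul, Complex.conj_ofReal]
      ring
    have h2 := congrArg Complex.re h1
    rw [Complex.ofReal_re] at h2
    rw [h2, Complex.re_sum]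
    refine Finset.sum_congr rfl fun x _ => ?_
    rw [Complex.re_sum]
    refine Finset.sum_congr rfl fun y _ => ?_
    rw [← Complex.ofReal_mul, Complex.re_ofReal_mul]
  have h3 : ∑ x ∈ s, ∑ y ∈ s, c x * c y * FF N θ (x - y) p = ∑ σ : Equiv.Perm (Fin n), 1 / 2 * (
      Complex.normSq (∑ x ∈ s, (c x : ℂ) * (mFourier x.1 (fun l => θ p (σ l)) * zz N x.2 p)) +
      Complex.normSq (∑ x ∈ s, (c x : ℂ) * (mFourier x.1 (fun l => θ p (σ l)) *
        conj (zz N x.2 p)))) := by
    simp only [← hsq]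
    simp only [key, Finset.mul_sum]
    rw [Finset.sum_congr rfl fun x _ => Finset.sum_comm, Finset.sum_comm]
    refine Finset.sum_congr rfl fun σ _ => ?_
    rw [← Finset.sum_add_distrib, Finset.mul_sum]
    refine Finset.sum_congr rfl fun x _ => ?_
    rw [← Finset.sum_add_distrib, Finset.mul_sum]
    refine Finset.sum_congr rfl fun y _ => ?_
    ring
  rw [h3]
  exact Finset.sum_nonneg fun σ _ => mul_nonneg (by norm_num)
    (add_nonneg (Complex.normSq_nonneg _) (Complex.normSq_nonneg _))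

/-- The mean values of the basic functions. -/
theorem exists_C (hN : NormSys N) (h1 : Lim N (fun _ : P => 1) 1)
    (hcos : ∀ τ : ℝ, τ ≠ 0 → Lim N (fun p => (zz N τ p).re) 0) (hθ : ∀ p, Self (θ p))
    (ord : (Fin n → ℕ) → ℝ → ℤ)
    (hord : ∀ m, ∀ τ ∈ T, Lim N (fun p => (elm (uu (θ p)) m * zz N τ p).re) (ord m τ)) :
    ∃ C : (Fin n → ℤ) × T → ℝ, PD C ∧ (∀ x, IsInt (C x)) ∧ (∀ x, Lim N (FF N θ x) (C x)) ∧
      C 0 = n.factorial ∧ ∀ t : T, t ≠ 0 → C (0, t) = 0 := by
  have hex : ∀ x : (Fin n → ℤ) × T, ∃ y : ℝ, IsInt y ∧ Lim N (FF N θ x) y := by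
    rintro ⟨x, τ⟩
    obtain ⟨s, c, hc⟩ := orb_comb x
    refine ⟨∑ m ∈ s, (c m : ℝ) * (ord m τ : ℝ), ⟨∑ m ∈ s, c m * ord m τ, by push_cast; rfl⟩, ?_⟩
    have h2 : Lim N (fun p => ∑ m ∈ s, (c m : ℝ) * (elm (uu (θ p)) m * zz N τ p).re)
        (∑ m ∈ s, (c m : ℝ) * (ord m τ : ℝ)) :=
      Lim.sum hN s fun m _ => (hord m τ τ.2).const_mul _
    refine h2.congr fun p => ?_
    unfold FF Or
    rw [hc (uu (θ p)) (uu_ne _) (prod_sq (hθ p)), Complex.re_sum, Finset.sum_mul]
    refine Finset.sum_congr rfl fun m _ => ?_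
    have h3 : (elm (uu (θ p)) m).im = 0 := Complex.conj_eq_iff_im.1 (elm_real (hθ p) m)
    have h4 : ((c m : ℂ) * elm (uu (θ p)) m).re = (c m : ℝ) * (elm (uu (θ p)) m).re := by
      have : (c m : ℂ) = ((c m : ℝ) : ℂ) := by push_cast; rfl
      rw [this, Complex.re_ofReal_mul]
    rw [h4, Complex.mul_re, h3]
    ring
  choose C hC hlim using hex
  refine ⟨C, ⟨?_, ?_⟩, hC, hlim, ?_, ?_⟩
  · intro x
    refine Lim.unique (hlim (-x)) ((hlim x).congr fun p => ?_)
    unfold FF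
    rw [Prod.fst_neg, Prod.snd_neg, Or_neg, AddSubgroup.coe_neg, zz_neg hN, Complex.conj_re]
  · intro s c
    have h3 : Lim N (fun p => ∑ x ∈ s, ∑ y ∈ s, c x * c y * FF N θ (x - y) p)
        (∑ x ∈ s, ∑ y ∈ s, c x * c y * C (x - y)) :=
      Lim.sum hN s fun x _ => Lim.sum hN s fun y _ => (hlim (x - y)).const_mul _
    exact h3.nonneg fun p => FF_pos hN s c p
  · have h2 := h1.const_mul (n.factorial : ℝ)
    rw [mul_one] at h2
    refine Lim.unique (hlim 0) (h2.congr fun p => ?_)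
    unfold FF
    rw [Prod.fst_zero, Prod.snd_zero, Or_zero, AddSubgroup.coe_zero, zz_zero, Complex.one_re,
      mul_one]
  · intro t ht
    have h2 := (hcos t (fun h => ht (Subtype.ext h))).const_mul (n.factorial : ℝ)
    rw [mul_zero] at h2
    refine Lim.unique (hlim (0, t)) (h2.congr fun p => ?_)
    unfold FF
    rw [Or_zero]

end

end Pool.Agent.V8H32.Law
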