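import Mathlib

/-!
# Algebraic laws: definitions

`V = H^i(X)` is the `i`-th cohomology of a smooth projective variety over a number field `K`, of
dimension `N`, with the eigenvalues `α_{v,1}, …, α_{v,N}` of the geometric Frobenius at the primes `v`
outside of a finite set `S`.
-/

set_option autoImplicit false

namespace Pool.Agent.V8H32.Law

open NumberField IsDedekindDomain Filter Topology MeasureTheory

/-! ### L-functions -/

/-- A family of subsets of `{1, …, N}`: for `k = 1, …, N` it has `m_k` members with `k` elements each.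
These families are a basis of `⊗_k (Λ^k V)^{⊗ m_k}`, `dim V = N`. -/
abbrev Fam (N : ℕ) (m : Fin N → ℕ) : Type :=
  (x : Σ k : Fin N, Fin (m k)) → {A : Finset (Fin N) // A.card = (x.1 : ℕ) + 1}

/-- The product of all `α_l`, `l ∈ A`, over all members `A` of the family: an eigenvalue on
`⊗_k (Λ^k V)^{⊗ m_k}` for the eigenvalues `α_l` on `V`. -/
noncomputable def eig {N : ℕ} {m : Fin N → ℕ} (A : Fam N m) (α : Fin N → ℂ) : ℂ :=
  ∏ x, ∏ l ∈ (A x).1, α l

/-- The number of the members of the family that contain `l`. -/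
def wt {N : ℕ} {m : Fin N → ℕ} (A : Fam N m) (l : Fin N) : ℤ := ∑ x, if l ∈ (A x).1 then 1 else 0

/-- `⊗_k (Λ^k V)^{⊗ m_k}` is a part of `V^{⊗ D}` for `D = ∑ k m_k`. -/
def deg {N : ℕ} (m : Fin N → ℕ) : ℕ := ∑ k : Fin N, ((k : ℕ) + 1) * m k

section

variable {K : Type} [Field K] [NumberField K] {N : ℕ}

open Classical in
/-- The L-function of `⊗_k (Λ^k V)^{⊗ m_k}`: the Euler product over the primes not in `S`. -/
noncomputable def LFun (S : Finset (HeightOneSpectrum (𝓞 K)))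
    (α : HeightOneSpectrum (𝓞 K) → Fin N → ℂ) (m : Fin N → ℕ) (s : ℂ) : ℂ :=
  ∏' v : HeightOneSpectrum (𝓞 K), if v ∈ S then 1 else
    ∏ A : Fam N m, (1 - eig A (α v) * ((Ideal.absNorm v.asIdeal : ℕ) : ℂ) ^ (-s))⁻¹

/-- The point `w/2 + 1 + iτ` of the edge of absolute convergence, `w = i D` the weight. -/
noncomputable def edge (i : ℕ) (m : Fin N → ℕ) (τ : ℝ) : ℂ :=
  (i : ℂ) * (deg m : ℂ) / 2 + 1 + τ * Complex.I

/-- `log |L(w/2 + 1 + iτ + ε)| / log(1/ε)`. -/
noncomputable def size (i : ℕ) (S : Finset (HeightOneSpectrum (𝓞 K)))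
    (α : HeightOneSpectrum (𝓞 K) → Fin N → ℂ) (m : Fin N → ℕ) (τ ε : ℝ) : ℝ :=
  Real.log ‖LFun S α m (edge i m τ + ε)‖ / Real.log (1 / ε)

/-- `Λ` is a meromorphic continuation of the L-function of `⊗_k (Λ^k V)^{⊗ m_k}` to a neighbourhood of
the point `w/2 + 1 + iτ` of the edge. -/
def Continues (i : ℕ) (S : Finset (HeightOneSpectrum (𝓞 K)))
    (α : HeightOneSpectrum (𝓞 K) → Fin N → ℂ) (m : Fin N → ℕ) (τ : ℝ) (Λ : ℂ → ℂ) : Prop :=
  MeromorphicAt Λ (edge i m τ) ∧
    ∀ᶠ s in 𝓝 (edge i m τ), (i : ℝ) * (deg m : ℝ) / 2 + 1 < s.re → Λ s = LFun S α m s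

end

/-! ### Laws -/

/-- The closed subgroup of the torus `(ℝ/ℤ)^n` annihilated by the subgroup `P` of `ℤ^n`. All closed
subgroups of the torus are of this kind. -/
def ann {n : ℕ} (P : AddSubgroup (Fin n → ℤ)) : AddSubgroup (UnitAddTorus (Fin n)) where
  carrier := {θ | ∀ x ∈ P, ∑ l, x l • θ l = 0}
  zero_mem' := fun x _ => by simp
  add_mem' := by
    intro a b ha hb x hx
    simp only [Pi.add_apply, smul_add, Finset.sum_add_distrib]
    rw [ha x hx, hb x hx, add_zero]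
  neg_mem' := by
    intro a ha x hx
    simp only [Pi.neg_apply, smul_neg, Finset.sum_neg_distrib]
    rw [ha x hx, neg_zero]

/-- `μ` is the Haar measure of total mass `1` of the closed subgroup `H`. -/
structure IsHaar {n : ℕ} (H : AddSubgroup (UnitAddTorus (Fin n)))
    (μ : Measure (UnitAddTorus (Fin n))) : Prop where
  prob : IsProbabilityMeasure μ
  supp : μ (H : Set (UnitAddTorus (Fin n)))ᶜ = 0
  inv : ∀ g ∈ H, μ.map (fun θ => g + θ) = μ

/-- The trigonometric polynomial `∑_y c(y) e^{-2πi ⟨y, θ⟩}`. -/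
noncomputable def lau {n : ℕ} (c : (Fin n → ℤ) →₀ ℤ) (θ : UnitAddTorus (Fin n)) : ℂ :=
  ∑ y ∈ c.support, (c y : ℂ) * UnitAddTorus.mFourier (-y) θ

section

variable {K : Type} [Field K] [NumberField K] {N : ℕ}

open Classical in
/-- The mean value of a function over the primes not in `S`, with the weights `q_v^{-1-ε}`. -/
noncomputable def mean (S : Finset (HeightOneSpectrum (𝓞 K)))
    (f : HeightOneSpectrum (𝓞 K) → ℝ) (ε : ℝ) : ℝ :=
  (∑' v : HeightOneSpectrum (𝓞 K), if v ∈ S then 0 else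
      f v * (Ideal.absNorm v.asIdeal : ℝ) ^ (-(1 + ε))) /
    ∑' v : HeightOneSpectrum (𝓞 K), (Ideal.absNorm v.asIdeal : ℝ) ^ (-(1 + ε))

/-- The Frobenius classes have an algebraic law. There are at most `N!` closed subgroups `H_j` of the
torus `(ℝ/ℤ)^N` and trigonometric polynomials `p_j` with integral coefficients, for which the measures
`p_j · Haar(H_j)` are positive, such that the classes of the eigenangles
`θ_v = (θ_{v,1}, …, θ_{v,N})`, `α_{v,l} = q_v^{i/2} e^{2πi θ_{v,l}}`, are equidistributed in Dirichlet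
density with respect to the measure `(1/N!) ∑_j p_j · Haar(H_j)`: for every continuous symmetric
function `f` on the torus the mean value of `f(θ_v)` tends to its integral. -/
def AlgebraicLaw (i : ℕ) (S : Finset (HeightOneSpectrum (𝓞 K)))
    (α : HeightOneSpectrum (𝓞 K) → Fin N → ℂ) : Prop :=
  ∃ (r : ℕ) (P : Fin r → AddSubgroup (Fin N → ℤ)) (c : Fin r → (Fin N → ℤ) →₀ ℤ)
    (μ : Fin r → Measure (UnitAddTorus (Fin N))), r ≤ N.factorial ∧ (∀ j, IsHaar (ann (P j)) (μ j)) ∧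
    (∀ j, ∀ h : UnitAddTorus (Fin N) → ℝ, Continuous h → (∀ x, 0 ≤ h x) →
      0 ≤ ∫ x, h x * (lau (c j) x).re ∂(μ j)) ∧
    ∀ θ : HeightOneSpectrum (𝓞 K) → UnitAddTorus (Fin N),
      (∀ v, v ∉ S → ∀ l, α v l = (((Ideal.absNorm v.asIdeal : ℝ) ^ ((i : ℝ) / 2) : ℝ) : ℂ) *
        (AddCircle.toCircle (θ v l) : Circle)) →
      ∀ f : UnitAddTorus (Fin N) → ℝ, Continuous f →
        (∀ (σ : Equiv.Perm (Fin N)) (x : UnitAddTorus (Fin N)), f (fun l => x (σ l)) = f x) →
        Tendsto (mean S fun v => f (θ v)) (𝓝[>] 0)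
          (𝓝 (1 / (N.factorial : ℝ) * ∑ j, ∫ x, f x * (lau (c j) x).re ∂(μ j)))

open Classical in
/-- The orders `ord m τ`, `τ ∈ T`, are given by finitely many data: subgroups `H_j`, at most `N!`, of
`ℤ^N × T`, each of them the graph of a homomorphism from a subgroup of `ℤ^N` to `T`, and integers
`c_j(y)` for finitely many `y ∈ ℤ^N × T`, such that `N! · ord m τ` is the sum over the families `A` of
all `c_j(y)` with `(wt A, τ) ∈ y + H_j`. The heights `τ` with `ord m τ ≠ 0` for some `m` lie in a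
finitely generated group. -/
def FiniteData (T : AddSubgroup ℝ) (ord : (Fin N → ℕ) → ℝ → ℤ) : Prop :=
  (∃ (r : ℕ) (H : Fin r → AddSubgroup ((Fin N → ℤ) × T)) (c : Fin r → (Fin N → ℤ) × T →₀ ℤ),
    r ≤ N.factorial ∧ (∀ j, ∀ t : T, ((0 : Fin N → ℤ), t) ∈ H j → t = 0) ∧
    ∀ m, ∀ τ : T, (N.factorial : ℤ) * ord m τ = ∑ A : Fam N m, ∑ j, ∑ y ∈ (c j).support,
      c j y * if (wt A, τ) - y ∈ H j then 1 else 0) ∧
  ∃ Θ : Finset ℝ, ∀ m, ∀ τ ∈ T, ord m τ ≠ 0 → τ ∈ AddSubgroup.closure (Θ : Set ℝ)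

end

end Pool.Agent.V8H32.Law
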