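import Pool.Agent.V8H32.Law.Str

/-! The law. -/

set_option autoImplicit false

namespace Pool.Agent.V8H32.Law

open Complex Filter Topology ComplexConjugate UnitAddTorus MeasureTheory
open Pool.Agent.H341R2 Pool.Agent.W540.BE Pool.Agent.V8H32.Coh Pool.Agent.H235R3.PT

section

variable {n : ℕ}

theorem continuous_lau (c : (Fin n → ℤ) →₀ ℤ) : Continuous (lau c) := by
  unfold lau
  fun_prop

theorem norm_lau_le (c : (Fin n → ℤ) →₀ ℤ) (θ : UnitAddTorus (Fin n)) :
    ‖lau c θ‖ ≤ ∑ y ∈ c.support, |(c y : ℝ)| := by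
  unfold lau
  refine (norm_sum_le _ _).trans (Finset.sum_le_sum fun y _ => ?_)
  rw [norm_mul]
  have h1 : ‖mFourier (-y) θ‖ ≤ 1 := by
    have := (mFourier (-y)).norm_coe_le_norm θ
    rwa [mFourier_norm] at this
  calc ‖(c y : ℂ)‖ * ‖mFourier (-y) θ‖ ≤ ‖(c y : ℂ)‖ * 1 :=
        mul_le_mul_of_nonneg_left h1 (norm_nonneg _)
    _ = |(c y : ℝ)| := by
        rw [mul_one]
        have : (c y : ℂ) = ((c y : ℝ) : ℂ) := by push_cast; rfl
        rw [this, Complex.norm_real, Real.norm_eq_abs]

open Classical in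
theorem integral_lau {P : AddSubgroup (Fin n → ℤ)} {μ : Measure (UnitAddTorus (Fin n))}
    (hμ : IsHaar (ann P) μ) (c : (Fin n → ℤ) →₀ ℤ) (x : Fin n → ℤ) :
    ∫ θ, mFourier x θ * lau c θ ∂μ =
      ((∑ y ∈ c.support, (c y : ℝ) * if x - y ∈ P then 1 else 0 : ℝ) : ℂ) := by
  have := hμ.prob
  have h1 : ∀ θ, mFourier x θ * lau c θ = ∑ y ∈ c.support, (c y : ℂ) * mFourier (x - y) θ := by
    intro θ
    unfold lau
    rw [Finset.mul_sum]
    refine Finset.sum_congr rfl fun y _ => ?_
    rw [sub_eq_add_neg, mFourier_add]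
    ring
  simp only [h1]
  rw [integral_finsetSum]
  · push_cast
    refine Finset.sum_congr rfl fun y _ => ?_
    rw [integral_const_mul, integral_mFourier hμ]
    split_ifs <;> simp
  · intro y _
    refine Integrable.const_mul ?_ _
    exact (ContinuousMap.continuous _).integrable_of_hasCompactSupport
      (HasCompactSupport.of_compactSpace _)

end

section

variable {P : Type*} {N : P → ℕ} {n : ℕ} {θ : P → UnitAddTorus (Fin n)}

/-- **The law.** -/
theorem law (hN : NormSys N) (h1 : Lim N (fun _ : P => 1) 1) (hθ : ∀ p, Self (θ p))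
    {C : (Fin n → ℤ) → ℝ} (hlim : ∀ x, Lim N (fun p => Or (θ p) x) (C x)) {r : ℕ}
    {ψ : Fin r → (Fin n → ℤ) → ℝ} (hsum : ∀ x, C x = ∑ i, ψ i x)
    (P' : Fin r → AddSubgroup (Fin n → ℤ)) (c : Fin r → (Fin n → ℤ) →₀ ℤ)
    (hc : ∀ i x, ψ i x = ∑ y ∈ (c i).support, (c i y : ℝ) *
      @ite _ (x - y ∈ P' i) (Classical.propDecidable _) 1 0)
    (μ : Fin r → Measure (UnitAddTorus (Fin n))) (hμ : ∀ i, IsHaar (ann (P' i)) (μ i))
    (f : UnitAddTorus (Fin n) → ℝ) (hf : Continuous f)
    (hsym : ∀ (σ : Equiv.Perm (Fin n)) (x : UnitAddTorus (Fin n)), f (fun l => x (σ l)) = f x) :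
    Lim N (fun p => f (θ p)) (1 / (n.factorial : ℝ) * ∑ i, ∫ x, f x * (lau (c i) x).re ∂(μ i)) := by
  classical
  have hn0 : (0 : ℝ) < n.factorial := by exact_mod_cast n.factorial_pos
  set B : ℝ := 1 / (n.factorial : ℝ) * ∑ i, ∑ y ∈ (c i).support, |(c i y : ℝ)| with hB
  have hB0 : 0 ≤ B := by positivity
  refine Lim.approx hN h1 fun η hη => ?_
  set η' : ℝ := η / (B + 1) with hη'
  have hη'0 : 0 < η' := by positivity
  have hη'1 : η' ≤ η := div_le_self hη.le (by linarith)
  have hη'2 : η' * B ≤ η := by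
    rw [hη', div_mul_eq_mul_div, div_le_iff₀ (by positivity)]
    nlinarith
  -- approximation by a trigonometric polynomial
  set fC : C(UnitAddTorus (Fin n), ℂ) := ⟨fun x => (f x : ℂ), by fun_prop⟩ with hfC
  have hdense : fC ∈ (Submodule.span ℂ (Set.range (mFourier (d := Fin n)))).topologicalClosure := by
    rw [span_mFourier_closure_eq_top]
    trivial
  have hdense2 : fC ∈ closure ((Submodule.span ℂ (Set.range (mFourier (d := Fin n))) :
      Submodule ℂ C(UnitAddTorus (Fin n), ℂ)) : Set C(UnitAddTorus (Fin n), ℂ)) := hdense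
  obtain ⟨g, hg, hfg⟩ := Metric.mem_closure_iff.1 hdense2 η' hη'0
  obtain ⟨b, rfl⟩ := Finsupp.mem_span_range_iff_exists_finsupp.1 hg
  have hgv : ∀ x : UnitAddTorus (Fin n), (b.sum fun i a => a • mFourier i) x =
      ∑ i ∈ b.support, b i * mFourier i x := by
    intro x
    rw [Finsupp.sum, ContinuousMap.coe_sum, Finset.sum_apply]
    rfl
  have hclose : ∀ x : UnitAddTorus (Fin n),
      ‖(f x : ℂ) - ∑ i ∈ b.support, b i * mFourier i x‖ ≤ η' := by
    intro x
    have h2 := (ContinuousMap.dist_apply_le_dist (f := fC) (g := b.sum fun i a => a • mFourier i) x).trans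
      hfg.le
    rw [dist_eq_norm, hgv] at h2
    exact h2
  refine ⟨fun p => 1 / (n.factorial : ℝ) * ∑ i ∈ b.support, (b i).re * Or (θ p) i,
    1 / (n.factorial : ℝ) * ∑ i ∈ b.support, (b i).re * C i, ?_, fun p => ?_, ?_⟩
  · exact (Lim.sum hN _ fun i _ => (hlim i).const_mul _).const_mul _
  · -- the symmetrised polynomial
    have e1 : (1 / (n.factorial : ℝ) * ∑ i ∈ b.support, (b i).re * Or (θ p) i) =
        (1 / (n.factorial : ℂ) * ∑ σ : Equiv.Perm (Fin n), ∑ i ∈ b.support,
          b i * mFourier i (fun l => θ p (σ l))).re := by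
      have h2 : ∑ σ : Equiv.Perm (Fin n), ∑ i ∈ b.support, b i * mFourier i (fun l => θ p (σ l)) =
          ∑ i ∈ b.support, b i * orb (uu (θ p)) i := by
        rw [Finset.sum_comm]
        refine Finset.sum_congr rfl fun i _ => ?_
        rw [orb_eq, Finset.mul_sum]
      have h3 : (1 / (n.factorial : ℂ)) = ((1 / (n.factorial : ℝ) : ℝ) : ℂ) := by push_cast; rfl
      rw [h2, h3, Complex.re_ofReal_mul, Complex.re_sum]
      congr 1
      refine Finset.sum_congr rfl fun i _ => ?_
      have h4 : (orb (uu (θ p)) i).im = 0 := Complex.conj_eq_iff_im.1 (orb_real (hθ p) i)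
      rw [Complex.mul_re, h4, mul_zero, sub_zero]
      rfl
    have e2 : f (θ p) = (1 / (n.factorial : ℂ) * ∑ σ : Equiv.Perm (Fin n),
        (f (fun l => θ p (σ l)) : ℂ)).re := by
      have h3 : (1 / (n.factorial : ℂ)) = ((1 / (n.factorial : ℝ) : ℝ) : ℂ) := by push_cast; rfl
      rw [h3, Complex.re_ofReal_mul, Complex.re_sum]
      simp only [Complex.ofReal_re, hsym]
      rw [Finset.sum_const, Finset.card_univ, Fintype.card_perm, Fintype.card_fin, nsmul_eq_mul,
        ← mul_assoc, one_div, inv_mul_cancel₀ hn0.ne', one_mul]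
    change |f (θ p) - 1 / (n.factorial : ℝ) * ∑ i ∈ b.support, (b i).re * Or (θ p) i| ≤ η
    rw [e1, e2, ← Complex.sub_re, ← mul_sub, ← Finset.sum_sub_distrib]
    refine (Complex.abs_re_le_norm _).trans ?_
    rw [norm_mul]
    have h5 : ‖∑ σ : Equiv.Perm (Fin n), ((f (fun l => θ p (σ l)) : ℂ) -
        ∑ i ∈ b.support, b i * mFourier i (fun l => θ p (σ l)))‖ ≤ n.factorial * η' := by
      refine (norm_sum_le _ _).trans ?_
      refine (Finset.sum_le_card_nsmul _ _ η' fun σ _ => hclose _).trans (le_of_eq ?_)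
      rw [Finset.card_univ, Fintype.card_perm, Fintype.card_fin, nsmul_eq_mul]
    have h6 : ‖(1 / (n.factorial : ℂ))‖ = 1 / (n.factorial : ℝ) := by
      rw [norm_div, norm_one, Complex.norm_natCast]
    rw [h6]
    calc 1 / (n.factorial : ℝ) * _ ≤ 1 / (n.factorial : ℝ) * (n.factorial * η') :=
          mul_le_mul_of_nonneg_left h5 (by positivity)
      _ = η' := by field_simp
      _ ≤ η := hη'1
  · -- the integrals
    have h2 : ∀ i, |∫ x, f x * (lau (c i) x).re ∂(μ i) - ∑ k ∈ b.support, (b k).re * ψ i k| ≤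
        η' * ∑ y ∈ (c i).support, |(c i y : ℝ)| := by
      intro i
      have := (hμ i).prob
      have hint : ∀ F : UnitAddTorus (Fin n) → ℂ, Continuous F → Integrable F (μ i) := fun F hF =>
        hF.integrable_of_hasCompactSupport (HasCompactSupport.of_compactSpace _)
      have e1 : ((∫ x, f x * (lau (c i) x).re ∂(μ i) : ℝ)) =
          (∫ x, (f x : ℂ) * lau (c i) x ∂(μ i)).re := by
        have h3 := integral_re (hint (fun x => (f x : ℂ) * lau (c i) x)
          (by have := continuous_lau (c i); fun_prop))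
        simp only [RCLike.re_to_complex, Complex.re_ofReal_mul] at h3
        exact h3
      have e2 : ∑ k ∈ b.support, (b k).re * ψ i k =
          (∫ x, (∑ k ∈ b.support, b k * mFourier k x) * lau (c i) x ∂(μ i)).re := by
        have h3 : ∀ x, (∑ k ∈ b.support, b k * mFourier k x) * lau (c i) x =
            ∑ k ∈ b.support, b k * (mFourier k x * lau (c i) x) := by
          intro x
          rw [Finset.sum_mul]
          refine Finset.sum_congr rfl fun k _ => ?_
          ring
        simp only [h3]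
        rw [integral_finsetSum _ fun k _ => hint _ (by have := continuous_lau (c i); fun_prop),
          Complex.re_sum]
        refine Finset.sum_congr rfl fun k _ => ?_
        rw [integral_const_mul, integral_lau (hμ i), ← hc i k, Complex.re_mul_ofReal]
      rw [e1, e2, ← Complex.sub_re]
      refine (Complex.abs_re_le_norm _).trans ?_
      rw [← integral_sub (hint _ (by have := continuous_lau (c i); fun_prop))
        (hint _ (by have := continuous_lau (c i); fun_prop))]
      have h4 : ∀ x, ‖(f x : ℂ) * lau (c i) x -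
          (∑ k ∈ b.support, b k * mFourier k x) * lau (c i) x‖ ≤
            η' * ∑ y ∈ (c i).support, |(c i y : ℝ)| := by
        intro x
        rw [← sub_mul, norm_mul]
        exact mul_le_mul (hclose x) (norm_lau_le _ _) (norm_nonneg _) hη'0.le
      have h5 := norm_integral_le_of_norm_le_const (μ := μ i) (Eventually.of_forall h4)
      rwa [probReal_univ, mul_one] at h5
    have h3 : ∑ i ∈ b.support, (b i).re * C i = ∑ i, ∑ k ∈ b.support, (b k).re * ψ i k := by
      rw [Finset.sum_comm]
      refine Finset.sum_congr rfl fun k _ => ?_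
      rw [hsum, Finset.mul_sum]
    rw [h3, ← mul_sub, ← Finset.sum_sub_distrib, abs_mul, abs_of_pos (by positivity)]
    calc 1 / (n.factorial : ℝ) * |∑ i, (∫ x, f x * (lau (c i) x).re ∂(μ i) -
          ∑ k ∈ b.support, (b k).re * ψ i k)|
        ≤ 1 / (n.factorial : ℝ) * ∑ i, η' * ∑ y ∈ (c i).support, |(c i y : ℝ)| := by
          refine mul_le_mul_of_nonneg_left ?_ (by positivity)
          exact (Finset.abs_sum_le_sum_abs _ _).trans (Finset.sum_le_sum fun i _ => h2 i)
      _ = η' * B := by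
          rw [← Finset.mul_sum, hB]
          ring
      _ ≤ η := hη'2

end

end Pool.Agent.V8H32.Law
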