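import Pool.Agent.V8H32.Law.Pos

/-! The orders; the heights. -/

set_option autoImplicit false

namespace Pool.Agent.V8H32.Law

open Complex Filter Topology ComplexConjugate UnitAddTorus MeasureTheory
open Pool.Agent.H341R2 Pool.Agent.W540.BE Pool.Agent.V8H32.Coh Pool.Agent.H235R3.PT

section

variable {n : ℕ}

theorem elm_eq (u : Fin n → ℂ) (m : Fin n → ℕ) : elm u m = ∑ A : Fam n m, eig A u := by
  unfold elm eig
  have h1 : ∀ k : Fin n, el u (k + 1) ^ m k = ∏ _j : Fin (m k), el u (k + 1) := by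
    intro k
    rw [Finset.prod_const, Finset.card_univ, Fintype.card_fin]
  rw [Finset.prod_congr rfl fun k _ => h1 k,
    ← Fintype.prod_sigma' fun (k : Fin n) (_ : Fin (m k)) => el u (k + 1)]
  unfold el
  rw [Finset.prod_univ_sum, Fintype.piFinset_univ]

theorem eig_eq (u : Fin n → ℂ) {m : Fin n → ℕ} (A : Fam n m) :
    eig A u = ∏ l, u l ^ wt A l := by
  unfold eig wt
  have h1 : ∀ x, ∏ l ∈ (A x).1, u l = ∏ l, u l ^ (if l ∈ (A x).1 then 1 else 0 : ℕ) := by
    intro x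
    rw [← Finset.prod_filter_mul_prod_filter_not Finset.univ (fun l => l ∈ (A x).1)]
    rw [Finset.prod_eq_one (s := Finset.univ.filter fun l => l ∉ (A x).1), mul_one]
    · rw [Finset.filter_mem_eq_inter, Finset.univ_inter]
      refine Finset.prod_congr rfl fun l hl => ?_
      rw [if_pos hl, pow_one]
    · intro l hl
      rw [if_neg (Finset.mem_filter.1 hl).2, pow_zero]
  rw [Finset.prod_congr rfl fun x _ => h1 x, Finset.prod_comm]
  refine Finset.prod_congr rfl fun l _ => ?_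
  rw [Finset.prod_pow_eq_pow_sum]
  have h2 : (∑ x, if l ∈ (A x).1 then (1 : ℤ) else 0) =
      ((∑ x, if l ∈ (A x).1 then 1 else 0 : ℕ) : ℤ) := by
    push_cast
    rfl
  rw [h2, zpow_natCast]

theorem elm_perm (u : Fin n → ℂ) (σ : Equiv.Perm (Fin n)) (m : Fin n → ℕ) :
    elm (fun l => u (σ l)) m = elm u m := by
  unfold elm
  simp only [el_perm]

theorem fact_elm (u : Fin n → ℂ) (m : Fin n → ℕ) :
    (n.factorial : ℂ) * elm u m = ∑ A : Fam n m, orb u (wt A) := by
  have h1 : (n.factorial : ℂ) * elm u m = ∑ σ : Equiv.Perm (Fin n), elm (fun l => u (σ l)) m := by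
    simp only [elm_perm]
    rw [Finset.sum_const, Finset.card_univ, Fintype.card_perm, Fintype.card_fin, nsmul_eq_mul]
  rw [h1]
  simp only [elm_eq, eig_eq]
  rw [Finset.sum_comm]
  rfl

end

section

variable {P : Type*} {N : P → ℕ} {n : ℕ} {θ : P → UnitAddTorus (Fin n)} {T : AddSubgroup ℝ}

theorem smul_ne {t : T} (ht : t ≠ 0) {k : ℤ} (hk : k ≠ 0) : k • t ≠ 0 := by
  intro h
  have h1 : (k : ℝ) * (t : ℝ) = 0 := by
    have := congrArg Subtype.val h
    rw [AddSubgroup.coe_zsmul, AddSubgroup.coe_zero, zsmul_eq_mul] at this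
    exact this
  rcases mul_eq_zero.1 h1 with h2 | h2
  · exact hk (by exact_mod_cast h2)
  · exact ht (Subtype.ext h2)

/-- the heights -/
theorem heights (H : AddSubgroup ((Fin n → ℤ) × T))
    (hH : ∀ t : T, ((0 : Fin n → ℤ), t) ∈ H → t = 0) :
    ∃ Θ : Finset ℝ, ∀ x ∈ H, (x.2 : ℝ) ∈ AddSubgroup.closure (Θ : Set ℝ) := by
  set Hs : Submodule ℤ ((Fin n → ℤ) × T) := AddSubgroup.toIntSubmodule H with hHs
  have hinj : Function.Injective ((LinearMap.fst ℤ (Fin n → ℤ) T).comp Hs.subtype) := by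
    rw [← LinearMap.ker_eq_bot, LinearMap.ker_eq_bot']
    rintro ⟨⟨a, t⟩, hx⟩ h
    have h1 : a = 0 := h
    subst h1
    have h2 := hH t hx
    subst h2
    rfl
  have hno : IsNoetherian ℤ Hs := isNoetherian_of_injective _ hinj
  have hfg : Hs.FG := Module.Finite.iff_fg.1 inferInstance
  set L : ((Fin n → ℤ) × T) →ₗ[ℤ] ℝ :=
    (AddSubgroup.subtype T).toIntLinearMap.comp (LinearMap.snd ℤ (Fin n → ℤ) T) with hL
  obtain ⟨Θ, hΘ⟩ := hfg.map L
  refine ⟨Θ, fun x hx => ?_⟩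
  have h1 : L x ∈ Submodule.span ℤ (Θ : Set ℝ) := by
    rw [hΘ]
    exact Submodule.mem_map_of_mem hx
  have h2 : L x ∈ (Submodule.span ℤ (Θ : Set ℝ)).toAddSubgroup := h1
  rw [Submodule.span_int_eq_addSubgroupClosure] at h2
  exact h2

/-- **The abstract theorem on the orders.** -/
theorem data (hN : NormSys N) (h1 : Lim N (fun _ : P => 1) 1)
    (hcos : ∀ τ : ℝ, τ ≠ 0 → Lim N (fun p => (zz N τ p).re) 0) (hθ : ∀ p, Self (θ p))
    (ord : (Fin n → ℕ) → ℝ → ℤ)
    (hord : ∀ m, ∀ τ ∈ T, Lim N (fun p => (elm (uu (θ p)) m * zz N τ p).re) (ord m τ)) :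
    FiniteData T ord := by
  classical
  obtain ⟨C, hC1, hC2, hC3, hC4, hC5⟩ := exists_C (T := T) hN h1 hcos hθ ord hord
  obtain ⟨r, ψ, hsum, hs⟩ := cohen hC1 hC2
  choose c hc using fun j => simple_repr (hs j)
  have hge : ∀ j, 1 ≤ ψ j 0 := by
    intro j
    have h2 := ((hs j).int 0).one_le_abs (hs j).ne
    rwa [abs_of_nonneg (hs j).pd.zero_nonneg] at h2
  have hr : r ≤ n.factorial := by
    have h2 : (r : ℝ) ≤ ∑ j, ψ j 0 := by
      calc (r : ℝ) = ∑ _j : Fin r, (1 : ℝ) := by simp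
        _ ≤ ∑ j, ψ j 0 := Finset.sum_le_sum fun j _ => hge j
    rw [← hsum, hC4] at h2
    exact_mod_cast h2
  have hgr : ∀ j, ∀ t : T, ((0 : Fin n → ℤ), t) ∈ per (hs j).pd → t = 0 := by
    intro j t ht
    by_contra hne
    refine per_avg hsum hs j ht fun k hk => ?_
    have : k • ((0 : Fin n → ℤ), t) = (0, k • t) := by
      rw [Prod.smul_mk, smul_zero]
    rw [this]
    exact hC5 _ (smul_ne hne hk)
  -- the orders
  have hordC : ∀ m, ∀ τ : T, (n.factorial : ℝ) * (ord m τ : ℝ) = ∑ A : Fam n m, C (wt A, τ) := by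
    intro m τ
    have h2 := (hord m τ τ.2).const_mul (n.factorial : ℝ)
    have h3 : Lim N (fun p => ∑ A : Fam n m, FF N θ (wt A, τ) p) (∑ A : Fam n m, C (wt A, τ)) :=
      Lim.sum hN _ fun A _ => hC3 _
    refine Lim.unique h2 (h3.congr fun p => ?_)
    unfold FF Or
    have h6 : ∑ A : Fam n m, (orb (uu (θ p)) (wt A)).re * (zz N (τ : ℝ) p).re =
        ((n.factorial : ℂ) * elm (uu (θ p)) m).re * (zz N (τ : ℝ) p).re := by
      rw [fact_elm, Complex.re_sum, Finset.sum_mul]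
    refine h6.trans ?_
    have h4 : (elm (uu (θ p)) m).im = 0 := Complex.conj_eq_iff_im.1 (elm_real (hθ p) m)
    rw [Complex.mul_re (elm _ _), h4, zero_mul, sub_zero]
    have h5 : ((n.factorial : ℂ) * elm (uu (θ p)) m).re = n.factorial * (elm (uu (θ p)) m).re := by
      have : (n.factorial : ℂ) = ((n.factorial : ℝ) : ℂ) := by push_cast; rfl
      rw [this, Complex.re_ofReal_mul]
    rw [h5, mul_assoc]
  have hform : ∀ m, ∀ τ : T, (n.factorial : ℤ) * ord m τ = ∑ A : Fam n m, ∑ j,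
      ∑ y ∈ (c j).support, c j y * if (wt A, τ) - y ∈ per (hs j).pd then 1 else 0 := by
    intro m τ
    have h2 := hordC m τ
    simp only [hsum, hc] at h2
    have h3 : (((n.factorial : ℤ) * ord m τ : ℤ) : ℝ) = ((∑ A : Fam n m, ∑ j,
        ∑ y ∈ (c j).support, c j y * (if (wt A, τ) - y ∈ per (hs j).pd then 1 else 0) : ℤ) : ℝ) := by
      push_cast
      exact h2
    exact_mod_cast h3
  refine ⟨⟨r, fun j => per (hs j).pd, c, hr, hgr, fun m τ => ?_⟩, ?_⟩
  · rw [hform m τ]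
  · choose Θ hΘ using fun j => heights (per (hs j).pd) (hgr j)
    refine ⟨(Finset.univ.biUnion Θ) ∪ (Finset.univ.biUnion fun j => (c j).support.image fun y => (y.2 : ℝ)),
      fun m τ hτ hne => ?_⟩
    have h2 := hform m ⟨τ, hτ⟩
    have h3 : (∑ A : Fam n m, ∑ j, ∑ y ∈ (c j).support, c j y *
        if (wt A, (⟨τ, hτ⟩ : T)) - y ∈ per (hs j).pd then (1 : ℤ) else 0) ≠ 0 := by
      rw [← h2]
      refine mul_ne_zero ?_ hne
      exact_mod_cast n.factorial_ne_zero
    obtain ⟨A, -, h4⟩ := Finset.exists_ne_zero_of_sum_ne_zero h3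
    obtain ⟨j, -, h5⟩ := Finset.exists_ne_zero_of_sum_ne_zero h4
    obtain ⟨y, hy, h6⟩ := Finset.exists_ne_zero_of_sum_ne_zero h5
    have h7 : (wt A, (⟨τ, hτ⟩ : T)) - y ∈ per (hs j).pd := by
      by_contra hcon
      rw [if_neg hcon, mul_zero] at h6
      exact h6 rfl
    have h8 := hΘ j _ h7
    have h9 : τ = (((wt A, (⟨τ, hτ⟩ : T)) - y).2 : ℝ) + (y.2 : ℝ) := by
      rw [Prod.snd_sub, AddSubgroup.coe_sub]
      ring
    rw [h9]
    refine AddSubgroup.add_mem _ (AddSubgroup.closure_mono ?_ h8) (AddSubgroup.subset_closure ?_)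
    · intro z hz
      rw [Finset.coe_union, Finset.coe_biUnion]
      exact Or.inl (Set.mem_biUnion (Finset.mem_coe.2 (Finset.mem_univ j)) hz)
    · rw [Finset.coe_union, Finset.coe_biUnion, Finset.coe_biUnion]
      refine Or.inr (Set.mem_biUnion (Finset.mem_coe.2 (Finset.mem_univ j)) ?_)
      exact Finset.mem_coe.2 (Finset.mem_image_of_mem _ hy)

end

end Pool.Agent.V8H32.Law
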