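import Pool.Agent.V8H32.Law.Dist

/-! Positivity of the pieces of the law; the orders; the heights. -/

set_option autoImplicit false

namespace Pool.Agent.V8H32.Law

open Complex Filter Topology ComplexConjugate UnitAddTorus MeasureTheory
open Pool.Agent.H341R2 Pool.Agent.W540.BE Pool.Agent.V8H32.Coh Pool.Agent.H235R3.PT

section

variable {n : ℕ}

theorem int_torus {μ : Measure (UnitAddTorus (Fin n))} [IsProbabilityMeasure μ]
    {F : UnitAddTorus (Fin n) → ℂ} (hF : Continuous F) : Integrable F μ :=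
  hF.integrable_of_hasCompactSupport (HasCompactSupport.of_compactSpace _)

/-- The pieces of the law are positive measures. -/
theorem lau_pos {ψ : (Fin n → ℤ) → ℝ} (hψ : PD ψ) {P : AddSubgroup (Fin n → ℤ)}
    {μ : Measure (UnitAddTorus (Fin n))} (hμ : IsHaar (ann P) μ) {c : (Fin n → ℤ) →₀ ℤ}
    (hc : ∀ x, ψ x = ∑ y ∈ c.support, (c y : ℝ) *
      @ite _ (x - y ∈ P) (Classical.propDecidable _) 1 0)
    {h : UnitAddTorus (Fin n) → ℝ} (hh : Continuous h) (h0 : ∀ x, 0 ≤ h x) :
    0 ≤ ∫ x, h x * (lau c x).re ∂μ := by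
  classical
  have := hμ.prob
  have hcl := continuous_lau c
  set B : ℝ := ∑ y ∈ c.support, |(c y : ℝ)| with hB
  have hB0 : 0 ≤ B := Finset.sum_nonneg fun _ _ => abs_nonneg _
  -- squares of trigonometric polynomials
  have hsq : ∀ b : (Fin n → ℤ) →₀ ℂ, 0 ≤ (∫ x, ((‖∑ i ∈ b.support, b i * mFourier i x‖ ^ 2 : ℝ) : ℂ) *
      lau c x ∂μ).re := by
    intro b
    have h1 : ∀ x, ((‖∑ i ∈ b.support, b i * mFourier i x‖ ^ 2 : ℝ) : ℂ) * lau c x =
        ∑ i ∈ b.support, ∑ j ∈ b.support, (b i * conj (b j)) * (mFourier (i - j) x * lau c x) := by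
      intro x
      rw [← Complex.normSq_eq_norm_sq, ← Complex.mul_conj, map_sum, Finset.sum_mul_sum,
        Finset.sum_mul]
      refine Finset.sum_congr rfl fun i _ => ?_
      rw [Finset.sum_mul]
      refine Finset.sum_congr rfl fun j _ => ?_
      rw [map_mul, sub_eq_add_neg, mFourier_add, mFourier_neg]
      ring
    simp only [h1]
    rw [integral_finsetSum _ fun i _ => int_torus (by fun_prop), Complex.re_sum]
    have h2 : ∀ i ∈ b.support, (∫ x, ∑ j ∈ b.support, (b i * conj (b j)) *
        (mFourier (i - j) x * lau c x) ∂μ).re =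
        ∑ j ∈ b.support, ((b i).re * (b j).re * ψ (i - j) + (b i).im * (b j).im * ψ (i - j)) := by
      intro i _
      rw [integral_finsetSum _ fun j _ => int_torus (by fun_prop), Complex.re_sum]
      refine Finset.sum_congr rfl fun j _ => ?_
      rw [integral_const_mul, integral_lau hμ, ← hc, Complex.re_mul_ofReal, Complex.mul_re,
        Complex.conj_re, Complex.conj_im]
      ring
    rw [Finset.sum_congr rfl h2]
    simp only [Finset.sum_add_distrib]
    exact add_nonneg (hψ.2 b.support fun i => (b i).re) (hψ.2 b.support fun i => (b i).im)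
  have hre : ∀ F : UnitAddTorus (Fin n) → ℝ, Continuous F →
      ∫ x, F x * (lau c x).re ∂μ = (∫ x, (F x : ℂ) * lau c x ∂μ).re := by
    intro F hF
    have h3 := integral_re (μ := μ) (int_torus (F := fun x => (F x : ℂ) * lau c x) (by fun_prop))
    simp only [RCLike.re_to_complex, Complex.re_ofReal_mul] at h3
    exact h3
  -- approximation of the square root
  obtain ⟨M, hM⟩ : ∃ M : ℝ, ∀ x, Real.sqrt (h x) ≤ M := by
    obtain ⟨M, hM⟩ := (isCompact_range (hh.sqrt)).bddAbove
    exact ⟨M, fun x => hM ⟨x, rfl⟩⟩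
  have hM0 : 0 ≤ M := (Real.sqrt_nonneg _).trans (hM 0)
  have key : ∀ δ : ℝ, 0 < δ → -(δ * (2 * M + δ) * B) ≤ ∫ x, h x * (lau c x).re ∂μ := by
    intro δ hδ
    set fC : C(UnitAddTorus (Fin n), ℂ) := ⟨fun x => (Real.sqrt (h x) : ℂ), by fun_prop⟩ with hfC
    have hdense : fC ∈ (Submodule.span ℂ (Set.range (mFourier (d := Fin n)))).topologicalClosure := by
      rw [span_mFourier_closure_eq_top]
      trivial
    have hdense2 : fC ∈ closure ((Submodule.span ℂ (Set.range (mFourier (d := Fin n))) :
        Submodule ℂ C(UnitAddTorus (Fin n), ℂ)) : Set C(UnitAddTorus (Fin n), ℂ)) := hdense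
    obtain ⟨g, hg, hfg⟩ := Metric.mem_closure_iff.1 hdense2 δ hδ
    obtain ⟨b, rfl⟩ := Finsupp.mem_span_range_iff_exists_finsupp.1 hg
    have hgv : ∀ x : UnitAddTorus (Fin n), (b.sum fun i a => a • mFourier i) x =
        ∑ i ∈ b.support, b i * mFourier i x := by
      intro x
      rw [Finsupp.sum, ContinuousMap.coe_sum, Finset.sum_apply]
      rfl
    have hclose : ∀ x : UnitAddTorus (Fin n),
        ‖(Real.sqrt (h x) : ℂ) - ∑ i ∈ b.support, b i * mFourier i x‖ ≤ δ := by
      intro x
      have h2 := (ContinuousMap.dist_apply_le_dist (f := fC) (g := b.sum fun i a => a • mFourier i)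
        x).trans hfg.le
      rw [dist_eq_norm, hgv] at h2
      exact h2
    have hdiff : ∀ x : UnitAddTorus (Fin n),
        |h x - ‖∑ i ∈ b.support, b i * mFourier i x‖ ^ 2| ≤ δ * (2 * M + δ) := by
      intro x
      set y := ‖∑ i ∈ b.support, b i * mFourier i x‖ with hy
      have e1 : |Real.sqrt (h x) - y| ≤ δ := by
        have h3 := abs_norm_sub_norm_le ((Real.sqrt (h x) : ℂ)) (∑ i ∈ b.support, b i * mFourier i x)
        rw [Complex.norm_real, Real.norm_eq_abs, abs_of_nonneg (Real.sqrt_nonneg _)] at h3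
        exact h3.trans (hclose x)
      have e2 : h x - y ^ 2 = (Real.sqrt (h x) - y) * (Real.sqrt (h x) + y) := by
        have := Real.sq_sqrt (h0 x)
        nlinarith
      have hy0 : 0 ≤ y := norm_nonneg _
      have hs0 : 0 ≤ Real.sqrt (h x) := Real.sqrt_nonneg _
      have e3 : Real.sqrt (h x) + y ≤ 2 * M + δ := by
        have := hM x
        rw [abs_le] at e1
        linarith
      rw [e2, abs_mul, abs_of_nonneg (add_nonneg hs0 hy0)]
      exact mul_le_mul e1 e3 (add_nonneg hs0 hy0) hδ.le
    have h3 := hsq b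
    rw [← hre (fun x => ‖∑ i ∈ b.support, b i * mFourier i x‖ ^ 2) (by fun_prop)] at h3
    have h4 : |(∫ x, h x * (lau c x).re ∂μ) - ∫ x, ‖∑ i ∈ b.support, b i * mFourier i x‖ ^ 2 *
        (lau c x).re ∂μ| ≤ δ * (2 * M + δ) * B := by
      have hcr : Continuous fun x => (lau c x).re := Complex.continuous_re.comp hcl
      rw [← integral_sub]
      · have h5 : ∀ x, ‖h x * (lau c x).re - ‖∑ i ∈ b.support, b i * mFourier i x‖ ^ 2 *
            (lau c x).re‖ ≤ δ * (2 * M + δ) * B := by
          intro x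
          rw [← sub_mul, norm_mul, Real.norm_eq_abs, Real.norm_eq_abs]
          refine mul_le_mul (hdiff x) ?_ (abs_nonneg _) (by positivity)
          exact (Complex.abs_re_le_norm _).trans (norm_lau_le c x)
        have h6 := norm_integral_le_of_norm_le_const (μ := μ) (Eventually.of_forall h5)
        rw [probReal_univ, mul_one, Real.norm_eq_abs] at h6
        exact h6
      · exact (hh.mul hcr).integrable_of_hasCompactSupport (HasCompactSupport.of_compactSpace _)
      · exact Continuous.integrable_of_hasCompactSupport (by fun_prop)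
          (HasCompactSupport.of_compactSpace _)
    rw [abs_le] at h4
    linarith
  by_contra hcon
  push Not at hcon
  set I := ∫ x, h x * (lau c x).re ∂μ with hI
  have hlim : Tendsto (fun δ : ℝ => -(δ * (2 * M + δ) * B)) (𝓝[>] 0) (𝓝 0) := by
    have : Continuous fun δ : ℝ => -(δ * (2 * M + δ) * B) := by fun_prop
    have h2 := this.tendsto 0
    simp only [zero_mul, neg_zero] at h2
    exact h2.mono_left nhdsWithin_le_nhds
  obtain ⟨δ, h1, h2⟩ := ((hlim.eventually (lt_mem_nhds hcon)).and self_mem_nhdsWithin).exists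
  exact absurd (key δ h2) (not_le.2 h1)

end

end Pool.Agent.V8H32.Law
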