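import Pool.Agent.V8H32.Law.Abs

/-! The structure of the integral positive definite functions, and the law. -/

set_option autoImplicit false

namespace Pool.Agent.V8H32.Law

open Complex Filter Topology ComplexConjugate UnitAddTorus MeasureTheory
open Pool.Agent.H341R2 Pool.Agent.W540.BE Pool.Agent.V8H32.Coh Pool.Agent.H235R3.PT

section

variable {G : Type*} [AddCommGroup G]

/-- the periods of a positive definite function -/
def per {ψ : G → ℝ} (h : PD ψ) : AddSubgroup G where
  carrier := {x | ψ x = ψ 0}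
  zero_mem' := rfl
  add_mem' := by
    intro a b ha hb
    have := periodic h hb a
    change ψ (a + b) = ψ 0
    rw [this]
    exact ha
  neg_mem' := by
    intro a ha
    change ψ (-a) = ψ 0
    rw [h.1]
    exact ha

theorem mem_per {ψ : G → ℝ} (h : PD ψ) {x : G} : x ∈ per h ↔ ψ x = ψ 0 := Iff.rfl

open Classical in
/-- a simple function is an integral combination of indicator functions of cosets of one subgroup -/
theorem simple_repr {ψ : G → ℝ} (h : Simple ψ) : ∃ c : G →₀ ℤ,
    ∀ x, ψ x = ∑ y ∈ c.support, (c y : ℝ) * if x - y ∈ per h.pd then 1 else 0 := by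
  obtain ⟨F, hF⟩ := h.fin
  choose z hz using h.int
  set H := per h.pd with hH
  -- representatives
  set rep : G → G := fun x => Quotient.out (QuotientAddGroup.mk x : G ⧸ H) with hrep
  have hrep1 : ∀ x, x - rep x ∈ H := by
    intro x
    have h1 : (QuotientAddGroup.mk (rep x) : G ⧸ H) = QuotientAddGroup.mk x :=
      QuotientAddGroup.out_eq' _
    have h2 := QuotientAddGroup.eq.1 h1
    rwa [neg_add_eq_sub] at h2
  have hrep2 : ∀ x y, x - y ∈ H → rep x = rep y := by
    intro x y hxy
    simp only [hrep]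
    congr 1
    rw [QuotientAddGroup.eq, neg_add_eq_sub, ← neg_sub]
    exact H.neg_mem hxy
  have hψ : ∀ x y, x - y ∈ H → ψ x = ψ y := by
    intro x y hxy
    have h1 := periodic h.pd (δ := x - y) hxy y
    rwa [add_sub_cancel] at h1
  set c : G →₀ ℤ := Finsupp.onFinset (F.image rep) (fun y => if y ∈ F.image rep then z y else 0)
    (by
      intro y hy
      by_contra hcon
      rw [if_neg hcon] at hy
      exact hy rfl) with hc
  refine ⟨c, fun x => ?_⟩
  have hsub : c.support ⊆ F.image rep := Finsupp.support_onFinset_subset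
  have h1 : ∑ y ∈ c.support, (c y : ℝ) * (if x - y ∈ H then 1 else 0) =
      ∑ y ∈ F.image rep, (c y : ℝ) * (if x - y ∈ H then 1 else 0) := by
    refine Finset.sum_subset hsub fun y _ hy => ?_
    rw [Finsupp.notMem_support_iff.1 hy]
    simp
  rw [h1]
  by_cases hx : ψ x = 0
  · rw [hx]
    symm
    refine Finset.sum_eq_zero fun y hy => ?_
    split_ifs with hxy
    · have h2 : c y = z y := by
        simp only [hc, Finsupp.onFinset_apply]
        rw [if_pos hy]
      rw [h2, ← hz y, ← hψ x y hxy, hx, zero_mul]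
    · rw [mul_zero]
  · obtain ⟨y₀, hy₀, hy₀2⟩ := hF x hx
    have hxy₀ : x - y₀ ∈ H := hy₀2
    have hmem : rep x ∈ F.image rep := by
      rw [hrep2 x y₀ hxy₀]
      exact Finset.mem_image_of_mem _ hy₀
    rw [Finset.sum_eq_single_of_mem (rep x) hmem]
    · rw [if_pos (hrep1 x), mul_one]
      have h2 : c (rep x) = z (rep x) := by
        simp only [hc, Finsupp.onFinset_apply]
        rw [if_pos hmem]
      rw [h2, ← hz (rep x)]
      exact hψ x (rep x) (hrep1 x)
    · intro y hy hne
      rw [if_neg, mul_zero]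
      intro hxy
      refine hne ?_
      obtain ⟨y', _, rfl⟩ := Finset.mem_image.1 hy
      have h3 : rep (rep y') = rep y' := by
        have := hrep2 y' (rep y') (hrep1 y')
        exact this.symm
      rw [← h3]
      exact (hrep2 x (rep y') hxy).symm

/-- restriction of a positive definite function to a subgroup -/
theorem pd_comp {G' : Type*} [AddCommGroup G'] {φ : G → ℝ} (h : PD φ) (f : G' →+ G)
    (hf : Function.Injective f) : PD fun x => φ (f x) := by
  classical
  constructor
  · intro x
    simp only [map_neg]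
    exact h.1 _
  · intro s u
    have h1 := h.2 (s.map ⟨f, hf⟩) (Function.extend f u 0)
    simp only [Finset.sum_map, Function.Embedding.coeFn_mk, hf.extend_apply] at h1
    simpa only [map_sub] using h1

/-- Averages: if `C` vanishes on the nonzero elements of a subgroup without torsion then the periods of
the summands meet the subgroup in zero. -/
theorem per_avg {C : G → ℝ} {r : ℕ} {ψ : Fin r → G → ℝ} (hsum : ∀ x, C x = ∑ i, ψ i x)
    (hs : ∀ i, Simple (ψ i)) (i : Fin r) {g : G} (hg : g ∈ per (hs i).pd)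
    (hC : ∀ k : ℤ, k ≠ 0 → C (k • g) = 0) : False := by
  classical
  have h0 : ∀ i, 1 ≤ ψ i 0 := by
    intro i
    have h1 := ((hs i).int 0).one_le_abs (hs i).ne
    rwa [abs_of_nonneg (hs i).pd.zero_nonneg] at h1
  have hC0 : 1 ≤ C 0 := by
    rw [hsum]
    exact (h0 i).trans (Finset.single_le_sum (f := fun j => ψ j 0)
      (fun j _ => le_trans zero_le_one (h0 j)) (Finset.mem_univ i))
  have hinj : Function.Injective fun a : ℕ => (a : ℤ) • g := by
    intro a b hab
    by_contra hne
    have h1 : ((a : ℤ) - b) • g = 0 := by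
      rw [sub_smul]
      exact sub_eq_zero.2 hab
    have h2 := hC ((a : ℤ) - b) (by omega)
    rw [h1] at h2
    linarith
  -- the sums over the multiples of `g`
  have hpos : ∀ (j : Fin r) (J : ℕ),
      0 ≤ ∑ a ∈ Finset.range J, ∑ b ∈ Finset.range J, ψ j (((a : ℤ) - b) • g) := by
    intro j J
    have h1 := (hs j).pd.2 ((Finset.range J).map ⟨fun a : ℕ => (a : ℤ) • g, hinj⟩) (fun _ => 1)
    simp only [Finset.sum_map, Function.Embedding.coeFn_mk, one_mul, ← sub_smul] at h1
    exact h1
  have htot : ∀ J : ℕ, ∑ a ∈ Finset.range J, ∑ b ∈ Finset.range J, C (((a : ℤ) - b) • g) = J * C 0 := by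
    intro J
    have h1 : ∀ a ∈ Finset.range J, ∑ b ∈ Finset.range J, C (((a : ℤ) - b) • g) = C 0 := by
      intro a ha
      rw [Finset.sum_eq_single_of_mem a ha]
      · rw [sub_self, zero_smul]
      · intro b _ hb
        refine hC _ ?_
        intro h
        exact hb (by omega)
    rw [Finset.sum_congr rfl h1, Finset.sum_const, Finset.card_range, nsmul_eq_mul]
  have hi : ∀ J : ℕ, ∑ a ∈ Finset.range J, ∑ b ∈ Finset.range J, ψ i (((a : ℤ) - b) • g) =
      (J : ℝ) * (J * ψ i 0) := by
    intro J
    have h1 : ∀ a ∈ Finset.range J, ∑ b ∈ Finset.range J, ψ i (((a : ℤ) - b) • g) = J * ψ i 0 := by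
      intro a _
      have h2 : ∀ b ∈ Finset.range J, ψ i (((a : ℤ) - (b : ℤ)) • g) = ψ i 0 := fun b _ =>
        AddSubgroup.zsmul_mem _ hg ((a : ℤ) - b)
      rw [Finset.sum_congr rfl h2, Finset.sum_const, Finset.card_range, nsmul_eq_mul]
    rw [Finset.sum_congr rfl h1, Finset.sum_const, Finset.card_range, nsmul_eq_mul]
  have hle : ∀ J : ℕ, (J : ℝ) * (J * ψ i 0) ≤ J * C 0 := by
    intro J
    rw [← htot, ← hi]
    have h1 : ∑ a ∈ Finset.range J, ∑ b ∈ Finset.range J, C (((a : ℤ) - b) • g) =
        ∑ j, ∑ a ∈ Finset.range J, ∑ b ∈ Finset.range J, ψ j (((a : ℤ) - b) • g) := by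
      simp only [hsum]
      rw [Finset.sum_congr rfl fun a _ => Finset.sum_comm, Finset.sum_comm]
    rw [h1]
    exact Finset.single_le_sum
      (f := fun j => ∑ a ∈ Finset.range J, ∑ b ∈ Finset.range J, ψ j (((a : ℤ) - b) • g))
      (fun j _ => hpos j J) (Finset.mem_univ i)
  obtain ⟨J, hJ⟩ := exists_nat_gt (C 0)
  have hJpos : (0 : ℝ) < J := lt_of_le_of_lt (zero_le_one.trans hC0) hJ
  have h2 := hle J
  have h3 : (J : ℝ) * ψ i 0 ≤ C 0 := le_of_mul_le_mul_left h2 hJpos
  have h4 : (J : ℝ) ≤ J * ψ i 0 := le_mul_of_one_le_right hJpos.le (h0 i)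
  linarith

end

end Pool.Agent.V8H32.Law
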