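import Mathlib

/-! Orbit sums are integral combinations of products of elementary symmetric functions. -/

set_option autoImplicit false

namespace Pool.Agent.V8H32.Law

open MvPolynomial

variable {n : ℕ}

/-- the elementary symmetric function -/
noncomputable def el (u : Fin n → ℂ) (k : ℕ) : ℂ := ∑ A : {A : Finset (Fin n) // A.card = k}, ∏ l ∈ A.1, u l

/-- the orbit sum, with multiplicities -/
noncomputable def orb (u : Fin n → ℂ) (x : Fin n → ℤ) : ℂ :=
  ∑ σ : Equiv.Perm (Fin n), ∏ l, u (σ l) ^ x l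

theorem aeval_esymm (u : Fin n → ℂ) (k : ℕ) : aeval u (esymm (Fin n) ℤ k) = el u k := by
  rw [esymm_eq_sum_subtype]
  simp [el]

/-- a product of elementary symmetric functions -/
noncomputable def elm (u : Fin n → ℂ) (m : Fin n → ℕ) : ℂ := ∏ k : Fin n, el u (k + 1) ^ m k

theorem orb_comb (x : Fin n → ℤ) : ∃ (s : Finset (Fin n → ℕ)) (c : (Fin n → ℕ) → ℤ),
    ∀ u : Fin n → ℂ, (∀ l, u l ≠ 0) → (∏ l, u l) ^ 2 = 1 →
      orb u x = ∑ m ∈ s, (c m : ℂ) * elm u m := by
  classical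
  obtain ⟨t, ht⟩ : ∃ t : ℕ, ∀ l, 0 ≤ x l + 2 * t := by
    refine ⟨∑ l, (x l).natAbs, fun l => ?_⟩
    have h1 : (x l).natAbs ≤ ∑ l, (x l).natAbs :=
      Finset.single_le_sum (f := fun l => (x l).natAbs) (fun _ _ => Nat.zero_le _) (Finset.mem_univ l)
    omega
  set p : MvPolynomial (Fin n) ℤ :=
    ∑ σ : Equiv.Perm (Fin n), ∏ l, X (σ l) ^ (x l + 2 * t).toNat with hp
  have hsym : p.IsSymmetric := by
    intro e
    rw [hp, map_sum]
    have h1 : ∀ σ : Equiv.Perm (Fin n), rename e (∏ l, (X (σ l) : MvPolynomial (Fin n) ℤ) ^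
        (x l + 2 * t).toNat) = ∏ l, X ((e * σ) l) ^ (x l + 2 * t).toNat := by
      intro σ
      rw [map_prod]
      refine Finset.prod_congr rfl fun l _ => ?_
      rw [map_pow, rename_X]
      rfl
    rw [Finset.sum_congr rfl fun σ _ => h1 σ]
    exact Fintype.sum_equiv (Equiv.mulLeft e) _ _ fun σ => rfl
  obtain ⟨Q, hQ⟩ := (esymmAlgEquiv (Fin n) ℤ (Fintype.card_fin n)).surjective ⟨p, hsym⟩
  have hQ2 : aeval (fun i : Fin n => esymm (Fin n) ℤ (i + 1)) Q = p := by
    rw [← esymmAlgHom_apply]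
    exact congrArg Subtype.val hQ
  refine ⟨Q.support.image (fun m : Fin n →₀ ℕ => (m : Fin n → ℕ)), fun m => Q.coeff (Finsupp.equivFunOnFinite.symm m),
    fun u hu0 hu => ?_⟩
  have h1 : aeval u p = orb u x := by
    rw [hp, map_sum]
    unfold orb
    refine Finset.sum_congr rfl fun σ _ => ?_
    rw [map_prod]
    have h2 : ∀ l, aeval u ((X (σ l) : MvPolynomial (Fin n) ℤ) ^ (x l + 2 * t).toNat) =
        u (σ l) ^ x l * u (σ l) ^ (2 * t) := by
      intro l
      rw [map_pow, aeval_X, ← zpow_natCast, Int.toNat_of_nonneg (ht l), zpow_add₀ (hu0 _),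
        ← zpow_natCast (u (σ l)) (2 * t)]
      push_cast
      rfl
    rw [Finset.prod_congr rfl fun l _ => h2 l, Finset.prod_mul_distrib, Finset.prod_pow,
      Equiv.prod_comp σ u, pow_mul, hu, one_pow, mul_one]
  rw [← h1, ← hQ2]
  have h3 : aeval u (aeval (fun i : Fin n => esymm (Fin n) ℤ (i + 1)) Q) =
      aeval (fun i : Fin n => el u (i + 1)) Q := by
    rw [← AlgHom.comp_apply]
    congr 1
    ext i
    simp [aeval_esymm]
  rw [h3, aeval_def, eval₂_eq', Finset.sum_image (f := fun m => ((Q.coeff (Finsupp.equivFunOnFinite.symm m) : ℤ) : ℂ) * elm u m)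
    (fun a _ b _ h => DFunLike.coe_injective h)]
  refine Finset.sum_congr rfl fun m _ => ?_
  congr 1
  have : Finsupp.equivFunOnFinite.symm (m : Fin n → ℕ) = m := Finsupp.equivFunOnFinite_symm_coe m
  rw [this]
  simp

end Pool.Agent.V8H32.Law
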