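import Pool.Agent.V8H32.Law.Ord
import Pool.Agent.W540.BE.Core
import Pool.Agent.TH958.BV.Defs
import Pool.Agent.TH958.BV.Weights

/-! Varieties. -/

set_option autoImplicit false

namespace Pool.Agent.V8H32.Law

open Complex Filter Topology ComplexConjugate UnitAddTorus MeasureTheory NumberField IsDedekindDomain
open Pool.Agent.H341R2 Pool.Agent.W540.BE Pool.Agent.V8H32.Coh Pool.Agent.H235R3.PT
open Pool.Agent.TH958.BV (IsFrobenius cone weights_unique)
open Pool.Agent.W401.Cheb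

/-! ### Multisets and permutations -/

theorem exists_perm {n : ℕ} {f g : Fin n → ℂ}
    (h : Finset.univ.val.map f = Finset.univ.val.map g) :
    ∃ σ : Equiv.Perm (Fin n), ∀ l, f l = g (σ l) := by
  classical
  have hcard : ∀ (f : Fin n → ℂ) (z : ℂ), Fintype.card {l // f l = z} =
      (Finset.univ.val.map f).count z := by
    intro f z
    rw [Multiset.count_map, Fintype.card_subtype]
    change (Finset.univ.filter fun l => f l = z).val.card = _
    rw [Finset.filter_val]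
    congr 1
    refine Multiset.filter_congr fun l _ => ⟨fun h => h.symm, fun h => h.symm⟩
  have he : ∀ z : ℂ, Nonempty ({l // f l = z} ≃ {l // g l = z}) := fun z =>
    Fintype.card_eq.1 (by rw [hcard, hcard, h])
  exact ⟨Equiv.ofFiberEquiv fun z => (he z).some, fun l => (Equiv.ofFiberEquiv_map _ l).symm⟩

/-! ### Frobenius -/

section

variable {K : Type} [Field K] [NumberField K]

/-- extensions of the residue field of every degree -/
theorem exists_ext (v : HeightOneSpectrum (𝓞 K)) {e : ℕ} (he : 1 ≤ e) :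
    ∃ (κ : Type) (_ : Field κ) (_ : Finite κ) (φ : 𝓞 K →+* κ), RingHom.ker φ = v.asIdeal ∧
      Nat.card κ = Ideal.absNorm v.asIdeal ^ e := by
  have : v.asIdeal.IsMaximal := v.isMaximal
  let _ : Field (𝓞 K ⧸ v.asIdeal) := Ideal.Quotient.field v.asIdeal
  have hfin : Finite (𝓞 K ⧸ v.asIdeal) := Ideal.finiteQuotientOfFreeOfNeBot v.asIdeal v.ne_bot
  obtain ⟨p, hc⟩ := CharP.exists (𝓞 K ⧸ v.asIdeal)
  have hp : Fact p.Prime := ⟨CharP.char_is_prime (𝓞 K ⧸ v.asIdeal) p⟩
  have he' : NeZero e := ⟨by omega⟩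
  let _ : Algebra (ZMod p) (𝓞 K ⧸ v.asIdeal) := ZMod.algebra _ p
  refine ⟨FiniteField.Extension (𝓞 K ⧸ v.asIdeal) p e, inferInstance, inferInstance,
    (algebraMap (𝓞 K ⧸ v.asIdeal) (FiniteField.Extension (𝓞 K ⧸ v.asIdeal) p e)).comp
      (Ideal.Quotient.mk v.asIdeal), ?_, ?_⟩
  · rw [RingHom.ker_comp_of_injective]
    · exact Ideal.mk_ker
    · exact RingHom.injective _
  · rw [FiniteField.natCard_extension]
    rfl

theorem frob_norm {n : ℕ} {X : Set (MvPolynomial (Fin n) (𝓞 K))} {d i : ℕ}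
    {v : HeightOneSpectrum (𝓞 K)} {N : ℕ} {α : Fin N → ℂ} (h : IsFrobenius X d i v α) (j : Fin N) :
    ‖α j‖ = (Ideal.absNorm v.asIdeal : ℝ) ^ ((i : ℝ) / 2) := by
  obtain ⟨β, h1, h2, h3⟩ := h
  refine h2 i (α j) ?_
  rw [h1]
  exact Multiset.mem_map_of_mem _ (Finset.mem_univ_val j)

theorem frob_conj {n : ℕ} {X : Set (MvPolynomial (Fin n) (𝓞 K))} {d i : ℕ}
    {v : HeightOneSpectrum (𝓞 K)} {N : ℕ} {α : Fin N → ℂ} (hi : i ≤ 2 * d)
    (h : IsFrobenius X d i v α) :
    Finset.univ.val.map (fun j => conj (α j)) = Finset.univ.val.map α := by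
  obtain ⟨β, h1, h2, h3⟩ := h
  have hq : (2 : ℝ) ≤ Ideal.absNorm v.asIdeal := by
    have := two_le_nm v
    exact_mod_cast this
  have h4 : β i = (β i).map (starRingEnd ℂ) := by
    refine weights_unique (Ideal.absNorm v.asIdeal : ℝ) (by linarith) (2 * d + 1) β
      (fun k => (β k).map (starRingEnd ℂ)) h2 (fun k z hz => ?_) (fun e he => ?_) (by omega)
    · obtain ⟨y, hy, rfl⟩ := Multiset.mem_map.1 hz
      rw [RCLike.norm_conj]
      exact h2 k y hy
    · obtain ⟨κ, i1, i2, φ, hk, hc⟩ := exists_ext v he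
      have h5 := h3 κ φ e hk hc
      have h6 := congrArg (starRingEnd ℂ) h5
      have hne : ((Ideal.absNorm v.asIdeal : ℂ) ^ e - 1) ≠ 0 := by
        have h7 : (1 : ℝ) < (Ideal.absNorm v.asIdeal : ℝ) ^ e :=
          one_lt_pow₀ (by linarith) (by omega)
        have h8 : ((Ideal.absNorm v.asIdeal : ℝ) ^ e - 1) ≠ 0 := by linarith
        exact_mod_cast h8
      have h7 : (starRingEnd ℂ) ((Ideal.absNorm v.asIdeal : ℂ) ^ e - 1) =
          (Ideal.absNorm v.asIdeal : ℂ) ^ e - 1 := by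
        rw [map_sub, map_pow, map_one, Complex.conj_natCast]
      rw [Complex.conj_natCast, map_mul, h7, h5] at h6
      have h8 := mul_left_cancel₀ hne h6
      rw [h8, map_sum]
      refine Finset.sum_congr rfl fun k _ => ?_
      rw [map_mul, map_pow, map_neg, map_one, map_multiset_sum, Multiset.map_map, Multiset.map_map]
      have h9 : (β k).map ((starRingEnd ℂ) ∘ fun z => z ^ e) =
          (β k).map ((fun z => z ^ e) ∘ (starRingEnd ℂ)) :=
        Multiset.map_congr rfl fun z _ => by simp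
      rw [h9]
  rw [h1, Multiset.map_map] at h4
  exact h4.symm

/-! ### Primes -/

theorem lim_oneK : Lim (nm K) (fun _ => 1) 1 := ⟨⟨1, fun _ => by simp⟩, EP_one K⟩

theorem lim_cosK (τ : ℝ) (hτ : τ ≠ 0) : Lim (nm K) (fun v => (zz (nm K) τ v).re) 0 := by
  refine ⟨⟨1, fun v => (Complex.abs_re_le_norm _).trans (norm_zz (normSys (F := K)) _ _).le⟩, ?_⟩
  have hU : IsOpen ((⊤ : Subgroup (GK K)) : Set (GK K)) := isOpen_univ
  have : Finite (GK K ⧸ (⊤ : Subgroup (GK K))) := by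
    have : Subsingleton (GK K ⧸ (⊤ : Subgroup (GK K))) := QuotientGroup.subsingleton_quotient_top
    infer_instance
  choose σ hσ using exists_isFrob (F := K)
  have h1 := cheb_mean (F := K) ⊤ hU (fun _ => 1) (fun _ _ => rfl) σ hσ
  have h2 : (Nat.card (GK K ⧸ (⊤ : Subgroup (GK K))) : ℂ)⁻¹ *
      ∑ᶠ _ : GK K ⧸ (⊤ : Subgroup (GK K)), (1 : ℂ) = ((1 : ℝ) : ℂ) := by
    classical
    let _ : Fintype (GK K ⧸ (⊤ : Subgroup (GK K))) := Fintype.ofFinite _
    have hne : (Nat.card (GK K ⧸ (⊤ : Subgroup (GK K))) : ℂ) ≠ 0 := by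
      have : Nat.card (GK K ⧸ (⊤ : Subgroup (GK K))) ≠ 0 := Nat.card_pos.ne'
      exact_mod_cast this
    rw [finsum_eq_sum_of_fintype, Finset.sum_const, Finset.card_univ, nsmul_eq_mul, mul_one,
      ← Nat.card_eq_fintype_card, inv_mul_cancel₀ hne]
    simp
  rw [h2] at h1
  have h3 := mean_edge (g := fun _ => 1) (B := 1) (by simp) 1 h1 τ
  rw [if_neg hτ] at h3
  refine h3.congr fun ε => ?_
  congr 2
  funext v
  unfold zz
  rw [one_mul]

/-! ### The system of the eigenangles -/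

variable {n N d i : ℕ} {X : Set (MvPolynomial (Fin n) (𝓞 K))}
  {S : Finset (HeightOneSpectrum (𝓞 K))} {α : HeightOneSpectrum (𝓞 K) → Fin N → ℂ}

/-- the eigenangles -/
structure Angles (i : ℕ) (S : Finset (HeightOneSpectrum (𝓞 K)))
    (α : HeightOneSpectrum (𝓞 K) → Fin N → ℂ) (θ : HeightOneSpectrum (𝓞 K) → UnitAddTorus (Fin N)) :
    Prop where
  eq : ∀ v, v ∉ S → ∀ l, α v l = (((Ideal.absNorm v.asIdeal : ℝ) ^ ((i : ℝ) / 2) : ℝ) : ℂ) *
    (AddCircle.toCircle (θ v l) : Circle)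
  self : ∀ v, Self (θ v)

theorem qpos (v : HeightOneSpectrum (𝓞 K)) : (0 : ℝ) < Ideal.absNorm v.asIdeal := by
  have := two_le_nm v
  have h2 : 0 < Ideal.absNorm v.asIdeal := by
    unfold nm at this
    omega
  exact_mod_cast h2

theorem exists_angles (hi : i ≤ 2 * d) (hα : ∀ v, v ∉ S → IsFrobenius X d i v (α v)) :
    ∃ θ, Angles i S α θ := by
  classical
  have hex : ∀ v : HeightOneSpectrum (𝓞 K), ∃ θ : UnitAddTorus (Fin N), (v ∉ S → ∀ l,
      α v l = (((Ideal.absNorm v.asIdeal : ℝ) ^ ((i : ℝ) / 2) : ℝ) : ℂ) *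
        (AddCircle.toCircle (θ l) : Circle)) ∧ Self θ := by
    intro v
    by_cases hv : v ∈ S
    · refine ⟨0, fun h => absurd hv h, 1, fun l => ?_⟩
      unfold uu
      simp
    · have hq : (0 : ℝ) < (Ideal.absNorm v.asIdeal : ℝ) ^ ((i : ℝ) / 2) :=
        Real.rpow_pos_of_pos (qpos v) _
      have hqc : (((Ideal.absNorm v.asIdeal : ℝ) ^ ((i : ℝ) / 2) : ℝ) : ℂ) ≠ 0 := by
        exact_mod_cast hq.ne'
      have h1 : ∀ l, ∃ x : UnitAddCircle, α v l =
          (((Ideal.absNorm v.asIdeal : ℝ) ^ ((i : ℝ) / 2) : ℝ) : ℂ) *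
            (AddCircle.toCircle x : Circle) := by
        intro l
        have h2 : ‖α v l / (((Ideal.absNorm v.asIdeal : ℝ) ^ ((i : ℝ) / 2) : ℝ) : ℂ)‖ = 1 := by
          rw [norm_div, frob_norm (hα v hv), Complex.norm_real, Real.norm_eq_abs, abs_of_pos hq,
            div_self hq.ne']
        obtain ⟨x, hx⟩ := (AddCircle.homeomorphCircle (one_ne_zero (α := ℝ))).surjective
          (⟨_, mem_sphere_zero_iff_norm.2 h2⟩ : Circle)
        refine ⟨x, ?_⟩
        have h3 : ((AddCircle.toCircle x : Circle) : ℂ) =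
            α v l / (((Ideal.absNorm v.asIdeal : ℝ) ^ ((i : ℝ) / 2) : ℝ) : ℂ) := by
          have h4 := congrArg (fun z : Circle => (z : ℂ)) hx
          rw [AddCircle.homeomorphCircle_apply] at h4
          exact h4
        rw [h3, mul_div_cancel₀ _ hqc]
      choose θ hθ using h1
      refine ⟨θ, fun _ => hθ, ?_⟩
      obtain ⟨σ, hσ⟩ := exists_perm (frob_conj hi (hα v hv))
      refine ⟨σ, fun l => ?_⟩
      have h5 := hσ l
      rw [hθ l, hθ (σ l), map_mul, Complex.conj_ofReal] at h5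
      exact mul_left_cancel₀ hqc h5
  choose θ h1 h2 using hex
  exact ⟨θ, h1, h2⟩

theorem card_fam {m : Fin N → ℕ} (A : Fam N m) : ∑ x, (A x).1.card = deg m := by
  unfold deg
  have h1 : ∀ x, (A x).1.card = (x.1 : ℕ) + 1 := fun x => (A x).2
  simp only [h1]
  rw [Fintype.sum_sigma]
  refine Finset.sum_congr rfl fun k _ => ?_
  change ∑ _y : Fin (m k), ((k : ℕ) + 1) = _
  rw [Finset.sum_const, Finset.card_univ, Fintype.card_fin, smul_eq_mul, mul_comm]

theorem eig_scale {θ : HeightOneSpectrum (𝓞 K) → UnitAddTorus (Fin N)} (h : Angles i S α θ)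
    {v : HeightOneSpectrum (𝓞 K)} (hv : v ∉ S) {m : Fin N → ℕ} (A : Fam N m) :
    eig A (α v) = (((Ideal.absNorm v.asIdeal : ℝ) ^ ((i : ℝ) * deg m / 2) : ℝ) : ℂ) *
      eig A (uu (θ v)) := by
  have h1 : ∀ l, α v l = (((Ideal.absNorm v.asIdeal : ℝ) ^ ((i : ℝ) / 2) : ℝ) : ℂ) *
      uu (θ v) l := h.eq v hv
  unfold eig
  simp only [h1, Finset.prod_mul_distrib, Finset.prod_const]
  congr 1
  rw [Finset.prod_pow_eq_pow_sum, card_fam]
  rw [← Complex.ofReal_pow, ← Real.rpow_natCast, ← Real.rpow_mul (qpos v).le]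
  congr 2
  ring

theorem norm_eig (θ : UnitAddTorus (Fin N)) {m : Fin N → ℕ} (A : Fam N m) :
    ‖eig A (uu θ)‖ = 1 := by
  unfold eig
  rw [norm_prod]
  refine Finset.prod_eq_one fun x _ => ?_
  rw [norm_prod]
  exact Finset.prod_eq_one fun l _ => norm_uu _ _

/-- the size of the L-functions -/
theorem size_law {θ : HeightOneSpectrum (𝓞 K) → UnitAddTorus (Fin N)} (h : Angles i S α θ)
    (m : Fin N → ℕ) (τ : ℝ) :
    (∀ᶠ ε : ℝ in 𝓝[>] 0, LFun S α m (edge i m τ + ε) ≠ 0) ∧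
    ∀ x : ℝ, Lim (nm K) (fun v => (elm (uu (θ v)) m * zz (nm K) τ v).re) x ↔
      Tendsto (size i S α m τ) (𝓝[>] 0) (𝓝 x) := by
  classical
  set w : ℝ := (i : ℝ) * deg m / 2 with hw
  have h0 := Coh.size (N := nm K) (normSys (F := K)) lim_oneK (ι := Fam N m) w τ S
    (fun v A => eig A (α v))
    (fun v hv A => by
      rw [eig_scale h hv, norm_mul, norm_eig, mul_one, Complex.norm_real, Real.norm_eq_abs,
        abs_of_pos (Real.rpow_pos_of_pos (qpos v) _)]
      rfl)
    (fun v => if v ∈ S then 1 else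
      ∏ A : Fam N m, (1 - Polynomial.C (eig A (α v)) * Polynomial.X))
    (fun v hv => by
      rw [if_pos hv]
      simp)
    (fun v hv z => by
      rw [if_neg hv, Polynomial.eval_prod]
      simp)
    (LFun S α m)
    (fun s _ => by
      unfold LFun
      refine tprod_congr fun v => ?_
      by_cases hv : v ∈ S
      · rw [if_pos hv, if_pos hv]
        simp
      · rw [if_neg hv, if_neg hv, Polynomial.eval_prod, Finset.prod_inv_distrib]
        congr 1
        refine Finset.prod_congr rfl fun A _ => ?_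
        simp only [Polynomial.eval_sub, Polynomial.eval_one, Polynomial.eval_mul,
          Polynomial.eval_C, Polynomial.eval_X]
        rfl)
  have e0 : (w : ℂ) + 1 + τ * I = edge i m τ := by
    unfold edge
    rw [hw]
    push_cast
    ring
  rw [e0] at h0
  refine ⟨h0.1, fun x => ?_⟩
  have h2 := h0.2 (fun v => (elm (uu (θ v)) m * zz (nm K) τ v).re) (fun v hv => by
    have hqc : ((nm K v : ℕ) : ℂ) ≠ 0 := by
      have := two_le_nm v
      exact_mod_cast (by omega : nm K v ≠ 0)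
    have h3 : (∑ A : Fam N m, eig A (α v)) * ((nm K v : ℕ) : ℂ) ^ (-(w : ℂ)) =
        elm (uu (θ v)) m := by
      rw [elm_eq, Finset.sum_mul]
      refine Finset.sum_congr rfl fun A _ => ?_
      rw [eig_scale h hv, ← hw]
      have h4 : (((Ideal.absNorm v.asIdeal : ℝ) ^ w : ℝ) : ℂ) = ((nm K v : ℕ) : ℂ) ^ (w : ℂ) := by
        rw [Complex.ofReal_cpow (qpos v).le]
        rfl
      rw [h4, mul_right_comm, ← Complex.cpow_add _ _ hqc, add_neg_cancel, Complex.cpow_zero, one_mul]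
    rw [h3]
    rfl) x
  rw [h2]
  rfl

/-- the mean value -/
theorem mean_lim {f : HeightOneSpectrum (𝓞 K) → ℝ} {x : ℝ} (hf : Lim (nm K) f x) :
    Tendsto (mean S f) (𝓝[>] 0) (𝓝 x) := by
  classical
  have h1 : Lim (nm K) (fun v => if v ∈ S then 0 else f v) x :=
    hf.of_fin (normSys (F := K)) S fun v hv => by rw [if_neg hv]
  have h2 := h1.lim.div (EP_one K) one_ne_zero
  rw [div_one] at h2
  refine h2.congr' ?_
  filter_upwards [lam_tendsto.eventually_gt_atTop 0] with ε hε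
  rw [Pi.div_apply, div_div_div_cancel_right₀ hε.ne']
  unfold mean EP
  congr 1
  · refine tsum_congr fun v => ?_
    change (if v ∈ S then 0 else f v) * _ = _
    by_cases hv : v ∈ S
    · rw [if_pos hv, if_pos hv, zero_mul]
    · rw [if_neg hv, if_neg hv]
      rfl
  · refine tsum_congr fun v => ?_
    rw [one_mul]
    rfl

/-- **The theorem.** -/
theorem main (hi : i ≤ 2 * d) (hα : ∀ v, v ∉ S → IsFrobenius X d i v (α v)) {T : AddSubgroup ℝ}
    {ord : (Fin N → ℕ) → ℝ → ℤ}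
    (hord : ∀ m, ∀ τ ∈ T, Tendsto (size i S α m τ) (𝓝[>] 0) (𝓝 (ord m τ))) :
    AlgebraicLaw i S α ∧ FiniteData T ord := by
  classical
  obtain ⟨θ, hθ⟩ := exists_angles hi hα
  have hord' : ∀ m, ∀ τ ∈ T, Lim (nm K) (fun v => (elm (uu (θ v)) m * zz (nm K) τ v).re)
      (ord m τ) := fun m τ hτ => ((size_law hθ m τ).2 _).2 (hord m τ hτ)
  refine ⟨?_, data (normSys (F := K)) lim_oneK lim_cosK hθ.self ord hord'⟩
  obtain ⟨C, hC1, hC2, hC3, hC4, hC5⟩ := exists_C (T := T) (normSys (F := K)) lim_oneK lim_cosK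
    hθ.self ord hord'
  set ι : (Fin N → ℤ) →+ (Fin N → ℤ) × T := AddMonoidHom.inl _ _ with hι
  have hιinj : Function.Injective ι := fun a b h => congrArg Prod.fst h
  have hPD : PD fun x : Fin N → ℤ => C (ι x) := pd_comp hC1 ι hιinj
  obtain ⟨r, ψ, hsum, hs⟩ := cohen hPD fun x => hC2 _
  choose c hc using fun j => simple_repr (hs j)
  choose μ hμ using fun j => exists_haar (isClosed_ann (per (hs j).pd))
  have hr : r ≤ N.factorial := by
    have h2 : (r : ℝ) ≤ ∑ j, ψ j 0 := by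
      calc (r : ℝ) = ∑ _j : Fin r, (1 : ℝ) := by simp
        _ ≤ ∑ j, ψ j 0 := Finset.sum_le_sum fun j _ => by
            have h2 := ((hs j).int 0).one_le_abs (hs j).ne
            rwa [abs_of_nonneg (hs j).pd.zero_nonneg] at h2
    have h3 := hsum 0
    simp only [map_zero] at h3
    rw [← h3, hC4] at h2
    exact_mod_cast h2
  refine ⟨r, fun j => per (hs j).pd, c, μ, hr, hμ, fun j h hh h0 => lau_pos (hs j).pd (hμ j) (hc j) hh h0,
    fun θ' hθ' f hf hsym => ?_⟩
  have hlim : ∀ x, Lim (nm K) (fun v => Or (θ v) x) (C (ι x)) := by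
    intro x
    refine (hC3 (ι x)).congr fun v => ?_
    unfold FF
    have e1 : ((ι x).2 : ℝ) = 0 := rfl
    rw [e1, zz_zero, Complex.one_re, mul_one]
    rfl
  have h1 := law (normSys (F := K)) lim_oneK hθ.self hlim hsum (fun j => per (hs j).pd) c hc μ hμ f hf
    hsym
  have h2 : Lim (nm K) (fun v => f (θ' v)) (1 / (N.factorial : ℝ) *
      ∑ j, ∫ x, f x * (lau (c j) x).re ∂(μ j)) := by
    refine h1.of_fin (normSys (F := K)) S fun v hv => ?_
    congr 1
    funext l
    have h3 := (hθ.eq v hv l).symm.trans (hθ' v hv l)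
    have hqc : (((Ideal.absNorm v.asIdeal : ℝ) ^ ((i : ℝ) / 2) : ℝ) : ℂ) ≠ 0 := by
      exact_mod_cast (Real.rpow_pos_of_pos (qpos v) _).ne'
    have h4 := mul_left_cancel₀ hqc h3
    exact AddCircle.injective_toCircle one_ne_zero (Circle.ext h4)
  exact mean_lim h2

end

end Pool.Agent.V8H32.Law
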